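import Mathlib
import Pool.Agent.Cov.PNT
import Pool.Agent.U839.Thin.Main

set_option autoImplicit false

/-! # Primorials, and arithmetic progressions without small prime factors -/

open Finset Filter Topology

namespace Pool.Agent.U839.Ru

open Pool.Agent.U839.Thin (tlog)

theorem log_prim (m : ℕ) : Chebyshev.theta (m : ℝ) = Real.log (primorial m) := by
  rw [Chebyshev.theta_eq_log_primorial, Nat.floor_natCast]

theorem bdd_of_ev (f : ℕ → ℝ) (h : ∀ᶠ m in atTop, f m ≤ 0) : ∃ C : ℝ, 0 < C ∧ ∀ m, f m ≤ C := by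
  obtain ⟨m₀, hm₀⟩ := eventually_atTop.1 h
  refine ⟨∑ m ∈ range m₀, |f m| + 1, by positivity, fun m => ?_⟩
  rcases Nat.lt_or_ge m m₀ with h1 | h1
  · have h2 : |f m| ≤ ∑ m ∈ range m₀, |f m| :=
      single_le_sum (f := fun m => |f m|) (fun _ _ => abs_nonneg _) (mem_range.2 h1)
    have h3 := le_abs_self (f m)
    linarith
  · have h2 := hm₀ m h1
    have h3 : 0 ≤ ∑ m ∈ range m₀, |f m| := sum_nonneg (fun _ _ => abs_nonneg _)
    linarith

theorem prim_le (η : ℝ) (hη : 0 < η) : ∃ C : ℝ, 0 < C ∧ ∀ m : ℕ,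
    Real.log (primorial m) ≤ (1 + η) * m + C := by
  have h := Pool.Agent.Cov.PNT.theta_div_tendsto
  have h1 : ∀ᶠ m : ℕ in atTop, Real.log (primorial m) - (1 + η) * m ≤ 0 := by
    filter_upwards [tendsto_natCast_atTop_atTop.eventually
      (h.eventually (gt_mem_nhds (show (1 : ℝ) < 1 + η by linarith))), eventually_ge_atTop 1] with m g1 g2
    have hm : (0 : ℝ) < m := by exact_mod_cast g2
    rw [div_lt_iff₀ hm, log_prim] at g1
    linarith
  obtain ⟨C, hC, h2⟩ := bdd_of_ev _ h1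
  exact ⟨C, hC, fun m => by linarith [h2 m]⟩

theorem prim_ge (η : ℝ) (hη : 0 < η) : ∃ C : ℝ, 0 < C ∧ ∀ m : ℕ,
    (1 - η) * m - C ≤ Real.log (primorial m) := by
  have h := Pool.Agent.Cov.PNT.theta_div_tendsto
  have h1 : ∀ᶠ m : ℕ in atTop, (1 - η) * m - Real.log (primorial m) ≤ 0 := by
    filter_upwards [tendsto_natCast_atTop_atTop.eventually
      (h.eventually (lt_mem_nhds (show (1 - η : ℝ) < 1 by linarith))), eventually_ge_atTop 1] with m g1 g2
    have hm : (0 : ℝ) < m := by exact_mod_cast g2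
    rw [lt_div_iff₀ hm, log_prim] at g1
    linarith
  obtain ⟨C, hC, h2⟩ := bdd_of_ev _ h1
  exact ⟨C, hC, fun m => by linarith [h2 m]⟩

/-- a class modulo one prime -/
theorem one_class (k d p : ℕ) (hp : p.Prime) (hd : p ≤ k → p ∣ d) :
    ∃ b, ∀ j < k, ¬ p ∣ b + j * d := by
  classical
  rcases Nat.lt_or_ge k p with h | h
  · obtain ⟨F, hF⟩ : ∃ F, F = (range k).image (fun j => (p - (j * d) % p) % p) := ⟨_, rfl⟩
    have hc : F.card < (range p).card := by
      rw [hF, card_range]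
      exact lt_of_le_of_lt card_image_le (by rw [card_range]; exact h)
    obtain ⟨b, hb1, hb2⟩ := exists_mem_notMem_of_card_lt_card hc
    refine ⟨b, fun j hj hdvd => hb2 ?_⟩
    rw [hF, mem_image]
    refine ⟨j, mem_range.2 hj, ?_⟩
    rw [mem_range] at hb1
    have hr := Nat.mod_lt (j * d) hp.pos
    have h2 : p ∣ b + (j * d) % p := by
      rw [Nat.dvd_iff_mod_eq_zero] at hdvd ⊢
      rwa [Nat.add_mod_mod]
    obtain ⟨c, hc⟩ := h2
    rcases Nat.lt_or_ge c 1 with h3 | h3
    · have h4 : c = 0 := by omega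
      subst h4
      have h5 : b = 0 := by omega
      have h6 : (j * d) % p = 0 := by omega
      rw [h6, h5]
      simp
    · rcases Nat.lt_or_ge c 2 with h4 | h4
      · have h5 : c = 1 := by omega
        subst h5
        have h6 : b = p - (j * d) % p := by omega
        rw [← h6, Nat.mod_eq_of_lt hb1]
      · have : p * 2 ≤ p * c := Nat.mul_le_mul_left p h4
        omega
  · refine ⟨1, fun j _ hdvd => ?_⟩
    have h1 : p ∣ j * d := (hd h).mul_left j
    have h2 : p ∣ 1 := (Nat.dvd_add_left h1).1 hdvd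
    exact hp.one_lt.ne' (Nat.dvd_one.1 h2)

theorem good_class (k d : ℕ) (P : Finset ℕ) (hP : ∀ p ∈ P, p.Prime) (hd : ∀ p ∈ P, p ≤ k → p ∣ d) :
    ∃ a, ∀ p ∈ P, ∀ j < k, ¬ p ∣ a + j * d := by
  classical
  induction P using Finset.induction_on with
  | empty => exact ⟨0, by simp⟩
  | insert p P hpP ih =>
    obtain ⟨a, ha⟩ := ih (fun q hq => hP q (mem_insert_of_mem hq)) (fun q hq => hd q (mem_insert_of_mem hq))
    have hpp := hP p (mem_insert_self p P)
    obtain ⟨b, hb⟩ := one_class k d p hpp (hd p (mem_insert_self p P))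
    have hco : Nat.Coprime (∏ q ∈ P, q) p := by
      apply Nat.Coprime.prod_left
      intro q hq
      rw [Nat.coprime_primes (hP q (mem_insert_of_mem hq)) hpp]
      rintro rfl
      exact hpP hq
    obtain ⟨c, hc1, hc2⟩ := Nat.chineseRemainder hco a b
    refine ⟨c, fun q hq j hj hdvd => ?_⟩
    rw [mem_insert] at hq
    rcases hq with rfl | hq
    · apply hb j hj
      have : b + j * d ≡ c + j * d [MOD q] := (hc2.add_right _).symm
      exact (this.dvd_iff dvd_rfl).2 hdvd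
    · apply ha q hq j hj
      have h1 : c ≡ a [MOD q] := hc1.of_dvd (dvd_prod_of_mem _ hq)
      have : a + j * d ≡ c + j * d [MOD q] := (h1.add_right _).symm
      exact (this.dvd_iff dvd_rfl).2 hdvd

/-- a residue class in `(x, 2 x]` -/
theorem count_class (x r v : ℕ) (hr : 0 < r) :
    (x : ℝ) / r - 1 ≤ (((Ioc x (x + x)).filter (fun n => n ≡ v [MOD r])).card : ℝ) ∧
    (((Ioc x (x + x)).filter (fun n => n ≡ v [MOD r])).card : ℝ) ≤ (x : ℝ) / r + 1 := by
  have h := Nat.Ioc_filter_modEq_card x (x + x) hr v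
  obtain ⟨u, hu⟩ : ∃ u : ℤ, u = ⌊(((x + x : ℕ) : ℚ) - v) / r⌋ := ⟨_, rfl⟩
  obtain ⟨w, hw⟩ : ∃ w : ℤ, w = ⌊((x : ℚ) - v) / r⌋ := ⟨_, rfl⟩
  rw [← hu, ← hw] at h
  have hr0 : (0 : ℚ) < r := by exact_mod_cast hr
  have e : (((x + x : ℕ) : ℚ) - v) / r = ((x : ℚ) - v) / r + x / r := by
    push_cast
    field_simp
    ring
  have u1 := Int.floor_le ((((x + x : ℕ) : ℚ) - v) / r)
  have u2 := Int.lt_floor_add_one ((((x + x : ℕ) : ℚ) - v) / r)
  have w1 := Int.floor_le (((x : ℚ) - v) / r)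
  have w2 := Int.lt_floor_add_one (((x : ℚ) - v) / r)
  rw [← hu, e] at u1 u2
  rw [← hw] at w1 w2
  have hx0 : (0 : ℚ) ≤ x / r := by positivity
  have hwu : w ≤ u := by
    rw [hu, hw]
    apply Int.floor_le_floor
    rw [e]
    linarith
  rw [max_eq_left (by omega)] at h
  have h' : ((((Ioc x (x + x)).filter (fun n => n ≡ v [MOD r])).card : ℤ) : ℚ) = ((u - w : ℤ) : ℚ) := by
    rw [h]
  push_cast at h'
  have hq : (x : ℚ) / r - 1 ≤ (((Ioc x (x + x)).filter (fun n => n ≡ v [MOD r])).card : ℚ) ∧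
      (((Ioc x (x + x)).filter (fun n => n ≡ v [MOD r])).card : ℚ) ≤ (x : ℚ) / r + 1 := by
    rw [h']
    constructor <;> linarith
  constructor
  · have h1 := (Rat.cast_le (K := ℝ)).2 hq.1
    push_cast at h1
    exact h1
  · have h1 := (Rat.cast_le (K := ℝ)).2 hq.2
    push_cast at h1
    exact h1

theorem prim_pr (y : ℕ) : primorial y = ∏ p ∈ (Ioc 0 y).filter Nat.Prime, p := by
  unfold primorial
  congr 1
  ext p
  simp only [mem_filter, mem_range, mem_Ioc]
  constructor
  · rintro ⟨h1, h2⟩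
    exact ⟨⟨h2.pos, by omega⟩, h2⟩
  · rintro ⟨⟨h1, h2⟩, h3⟩
    exact ⟨by omega, h3⟩

theorem dvd_prim {y p : ℕ} (hp : p.Prime) (h : p ≤ y) : p ∣ primorial y := by
  rw [prim_pr]
  exact dvd_prod_of_mem (fun p => p) (by rw [mem_filter, mem_Ioc]; exact ⟨⟨hp.pos, h⟩, hp⟩)

theorem prim_cop {y p : ℕ} (hp : p.Prime) (h : y < p) : Nat.Coprime (primorial y) p := by
  rw [prim_pr]
  apply Nat.Coprime.prod_left
  intro q hq
  rw [mem_filter, mem_Ioc] at hq
  rw [Nat.coprime_primes hq.2 hp]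
  omega

/-- many progressions without prime factors up to `t` -/
theorem cands (x y t k d : ℕ) (hy : 0 < y) (hd : ∀ p, p.Prime → p ≤ y → p ≤ k → p ∣ d) :
    ∃ S ⊆ Ioc x (x + x), (∀ n ∈ S, ∀ j < k, ∀ p, p.Prime → p ≤ t → ¬ p ∣ n + j * d) ∧
      (x : ℝ) / primorial y - 1 - k * ((Ioc y t).filter Nat.Prime).card *
        ((x : ℝ) / (primorial y * y) + 1) ≤ S.card := by
  classical
  have hM : 0 < primorial y := primorial_pos y
  obtain ⟨M, hMd⟩ : ∃ M, M = primorial y := ⟨_, rfl⟩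
  rw [← hMd] at hM ⊢
  obtain ⟨P2, hP2⟩ : ∃ P2, P2 = (Ioc y t).filter Nat.Prime := ⟨_, rfl⟩
  rw [← hP2]
  obtain ⟨a, ha⟩ := good_class k d ((Ioc 0 y).filter Nat.Prime) (fun p hp => (mem_filter.1 hp).2)
    (fun p hp hpk => by
      rw [mem_filter, mem_Ioc] at hp
      exact hd p hp.2 hp.1.2 hpk)
  obtain ⟨S₀, hS₀⟩ : ∃ S₀, S₀ = (Ioc x (x + x)).filter (fun n => n ≡ a [MOD M]) := ⟨_, rfl⟩
  obtain ⟨S, hS⟩ : ∃ S, S = S₀.filter (fun n => ∀ j < k, ∀ p ∈ P2, ¬ p ∣ n + j * d) := ⟨_, rfl⟩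
  have hc0 := (count_class x M a hM).1
  rw [← hS₀] at hc0
  refine ⟨S, ?_, ?_, ?_⟩
  · rw [hS, hS₀]
    exact (filter_subset _ _).trans (filter_subset _ _)
  · intro n hn j hj p hp hpt hdvd
    rw [hS, mem_filter, hS₀, mem_filter] at hn
    rcases Nat.lt_or_ge y p with h | h
    · exact hn.2 j hj p (by rw [hP2, mem_filter, mem_Ioc]; exact ⟨⟨h, hpt⟩, hp⟩) hdvd
    · apply ha p (by rw [mem_filter, mem_Ioc]; exact ⟨⟨hp.pos, h⟩, hp⟩) j hj
      have h1 : n ≡ a [MOD p] := hn.1.2.of_dvd (by rw [hMd]; exact dvd_prim hp h)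
      exact ((h1.add_right (j * d)).dvd_iff dvd_rfl).1 hdvd
  · have hcov : S₀ \ S ⊆ (range k).biUnion (fun j => P2.biUnion (fun p => S₀.filter (fun n => p ∣ n + j * d))) := by
      intro n hn
      rw [Finset.mem_sdiff, hS, mem_filter] at hn
      have h1 : ¬ ∀ j < k, ∀ p ∈ P2, ¬ p ∣ n + j * d := fun h => hn.2 ⟨hn.1, h⟩
      push Not at h1
      obtain ⟨j, hj, p, hp, hdvd⟩ := h1
      rw [mem_biUnion]
      refine ⟨j, mem_range.2 hj, ?_⟩
      rw [mem_biUnion]
      exact ⟨p, hp, by rw [mem_filter]; exact ⟨hn.1, hdvd⟩⟩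
    have hone : ∀ j, ∀ p ∈ P2, ((S₀.filter (fun n => p ∣ n + j * d)).card : ℝ) ≤
        (x : ℝ) / (M * y) + 1 := by
      intro j p hp
      rw [hP2, mem_filter, mem_Ioc] at hp
      have hMr : (0 : ℝ) < M := by exact_mod_cast hM
      have hyr : (0 : ℝ) < y := by exact_mod_cast hy
      rcases (S₀.filter (fun n => p ∣ n + j * d)).eq_empty_or_nonempty with h0 | ⟨n₀, hn₀⟩
      · rw [h0, card_empty, Nat.cast_zero]
        positivity
      · rw [mem_filter] at hn₀
        have hco : Nat.Coprime M p := by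
          rw [hMd]
          exact prim_cop hp.2 hp.1.1
        have hsub : S₀.filter (fun n => p ∣ n + j * d) ⊆
            (Ioc x (x + x)).filter (fun n => n ≡ n₀ [MOD (M * p)]) := by
          intro n hn
          rw [mem_filter] at hn
          rw [hS₀, mem_filter] at hn hn₀
          rw [mem_filter]
          refine ⟨hn.1.1, ?_⟩
          rw [← Nat.modEq_and_modEq_iff_modEq_mul hco]
          refine ⟨hn.1.2.trans hn₀.1.2.symm, ?_⟩
          have h1 : n + j * d ≡ n₀ + j * d [MOD p] :=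
            ((Nat.modEq_zero_iff_dvd.2 hn.2).trans (Nat.modEq_zero_iff_dvd.2 hn₀.2).symm)
          exact Nat.ModEq.add_right_cancel' _ h1
        have h2 := (count_class x (M * p) n₀ (Nat.mul_pos hM hp.2.pos)).2
        have h3 : ((S₀.filter (fun n => p ∣ n + j * d)).card : ℝ) ≤
            (((Ioc x (x + x)).filter (fun n => n ≡ n₀ [MOD (M * p)])).card : ℝ) := by
          exact_mod_cast card_le_card hsub
        refine h3.trans (h2.trans ?_)
        have h4 : (x : ℝ) / ((M * p : ℕ) : ℝ) ≤ (x : ℝ) / (M * y) := by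
          push_cast
          apply div_le_div_of_nonneg_left (Nat.cast_nonneg x) (by positivity)
          have : (y : ℝ) ≤ p := by exact_mod_cast hp.1.1.le
          gcongr
        linarith
    have h1 : ((S₀ \ S).card : ℝ) ≤ k * P2.card * ((x : ℝ) / (M * y) + 1) := by
      calc ((S₀ \ S).card : ℝ) ≤ ((range k).biUnion (fun j => P2.biUnion
            (fun p => S₀.filter (fun n => p ∣ n + j * d)))).card := by exact_mod_cast card_le_card hcov
        _ ≤ ∑ j ∈ range k, ((P2.biUnion (fun p => S₀.filter (fun n => p ∣ n + j * d))).card : ℝ) := by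
            exact_mod_cast card_biUnion_le
        _ ≤ ∑ j ∈ range k, ∑ p ∈ P2, ((S₀.filter (fun n => p ∣ n + j * d)).card : ℝ) := by
            apply sum_le_sum
            intro j _
            exact_mod_cast card_biUnion_le
        _ ≤ ∑ j ∈ range k, ∑ p ∈ P2, ((x : ℝ) / (M * y) + 1) :=
            sum_le_sum (fun j _ => sum_le_sum (hone j))
        _ = k * P2.card * ((x : ℝ) / (M * y) + 1) := by
            simp only [sum_const, card_range, nsmul_eq_mul]
            ring
    have h2 : (S₀.card : ℝ) ≤ S.card + (S₀ \ S).card := by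
      have h3 : S₀.card ≤ S.card + (S₀ \ S).card := by
        have h4 : S₀ ⊆ S ∪ (S₀ \ S) := by
          intro n hn
          rw [mem_union, Finset.mem_sdiff]
          tauto
        exact (card_le_card h4).trans (card_union_le _ _)
      exact_mod_cast h3
    linarith

/-- the number of primes between `y` and `t` -/
theorem primes_between (y t : ℕ) (hyt : y ≤ t) :
    ((Ioc y t).filter Nat.Prime).card * Real.log y ≤ Real.log (primorial t) - Real.log (primorial y) := by
  rw [← log_prim, ← log_prim]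
  have h1 : ∀ m : ℕ, Chebyshev.theta (m : ℝ) = ∑ p ∈ (Ioc 0 m).filter Nat.Prime, Real.log p := by
    intro m
    rw [Chebyshev.theta, Nat.floor_natCast]
  rw [h1, h1]
  have h2 : (Ioc 0 t).filter Nat.Prime = (Ioc 0 y).filter Nat.Prime ∪ (Ioc y t).filter Nat.Prime := by
    rw [← filter_union, Ioc_union_Ioc_eq_Ioc (Nat.zero_le y) hyt]
  rw [h2, sum_union, add_sub_cancel_left]
  · rw [← nsmul_eq_mul, ← sum_const]
    apply sum_le_sum
    intro p hp
    rw [mem_filter, mem_Ioc] at hp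
    rcases Nat.eq_zero_or_pos y with h3 | h3
    · rw [h3, Nat.cast_zero, Real.log_zero]
      exact Real.log_natCast_nonneg p
    · exact Real.log_le_log (by exact_mod_cast h3) (by exact_mod_cast hp.1.1.le)
  · apply disjoint_filter_filter
    rw [disjoint_left]
    intro p hp1 hp2
    rw [mem_Ioc] at hp1 hp2
    omega

end Pool.Agent.U839.Ru
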