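import Mathlib
import Pool.Agent.U839.Ru.Prim
import Pool.Agent.U839.Fb.Sum

set_option autoImplicit false

/-! # Candidates for the starting points of the runs -/

open Finset Filter Topology

namespace Pool.Agent.U839.Ru

open Pool.Agent.U839.Thin (tlog)

theorem log_small (c : ℝ) (η : ℝ) (hη : 0 < η) : ∀ᶠ x : ℕ in atTop, c + Real.log x ≤ (x : ℝ) ^ η := by
  have h1 := (isLittleO_log_rpow_atTop (r := η) hη).bound (show (0 : ℝ) < 1 / 2 by norm_num)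
  have h2 : ∀ᶠ x : ℕ in atTop, 2 * c ≤ (x : ℝ) ^ η :=
    ((tendsto_rpow_atTop hη).comp tendsto_natCast_atTop_atTop).eventually_ge_atTop _
  filter_upwards [tendsto_natCast_atTop_atTop.eventually h1, h2, tlog.eventually_ge_atTop 0] with x g1 g2 g3
  rw [Real.norm_of_nonneg g3, Real.norm_of_nonneg (by positivity)] at g1
  linarith

/-- candidates for sieves up to `log x` -/
theorem cands_log : ∀ᶠ x : ℕ in atTop, ∀ k t d : ℕ, (k : ℝ) ≤ 2 * Real.log (Real.log x) →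
    (t : ℝ) ≤ 101 / 100 * Real.log x → (∀ p, p.Prime → p ≤ k → p ∣ d) →
    ∃ S ⊆ Ioc x (x + x), (∀ n ∈ S, ∀ j < k, ∀ p, p.Prime → p ≤ t → ¬ p ∣ n + j * d) ∧
      (x : ℝ) ^ (1 / 20 : ℝ) ≤ S.card := by
  obtain ⟨C1, hC1, H1⟩ := prim_le (1 / 1000) (by norm_num)
  obtain ⟨C2, hC2, H2⟩ := prim_ge (1 / 1000) (by norm_num)
  have e1 : ∀ᶠ x : ℕ in atTop, (4 : ℝ) ≤ (x : ℝ) ^ (4 / 100 : ℝ) :=
    ((tendsto_rpow_atTop (by norm_num)).comp tendsto_natCast_atTop_atTop).eventually_ge_atTop _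
  filter_upwards [tlog.eventually_ge_atTop (1000 * (C1 + C2 + 10)), Pool.Agent.U839.Fb.tloglog.eventually_ge_atTop 100,
    e1, log_small 1 (1 / 20) (by norm_num), eventually_ge_atTop 2] with x g1 g2 g3 g4 g5 k t d hk ht hd
  obtain ⟨L, hL⟩ : ∃ L, L = Real.log x := ⟨_, rfl⟩
  rw [← hL] at g1 g2 g4 hk ht
  have hL0 : 0 < L := by linarith
  have hx0 : (0 : ℝ) < x := by
    have : (2 : ℝ) ≤ x := by exact_mod_cast g5
    linarith
  obtain ⟨y, hy⟩ : ∃ y, y = ⌊9 / 10 * L⌋₊ := ⟨_, rfl⟩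
  obtain ⟨t₀, ht₀⟩ : ∃ t₀, t₀ = ⌊101 / 100 * L⌋₊ := ⟨_, rfl⟩
  have hyu : (y : ℝ) ≤ 9 / 10 * L := by rw [hy]; exact Nat.floor_le (by positivity)
  have hyl : 9 / 10 * L < y + 1 := by rw [hy]; exact Nat.lt_floor_add_one _
  have htu : (t₀ : ℝ) ≤ 101 / 100 * L := by rw [ht₀]; exact Nat.floor_le (by positivity)
  have htt : t ≤ t₀ := by rw [ht₀]; exact Nat.le_floor ht
  have hyt : y ≤ t₀ := by
    rw [hy, ht₀]
    apply Nat.floor_le_floor
    linarith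
  have hy89 : 89 / 100 * L ≤ y := by linarith
  have hy0 : (0 : ℝ) < y := by linarith
  have hy1 : 0 < y := by exact_mod_cast hy0
  obtain ⟨M, hM⟩ : ∃ M, M = primorial y := ⟨_, rfl⟩
  have hMp : 0 < M := by rw [hM]; exact primorial_pos y
  have hM0 : (0 : ℝ) < M := by exact_mod_cast hMp
  have hMx : (M : ℝ) ≤ (x : ℝ) ^ (91 / 100 : ℝ) := by
    rw [← Real.log_le_log_iff hM0 (by positivity), Real.log_rpow hx0, ← hL, hM]
    have := H1 y
    linarith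
  obtain ⟨N2, hN2⟩ : ∃ N2, N2 = ((Ioc y t₀).filter Nat.Prime).card := ⟨_, rfl⟩
  have hlogy : 99 / 100 * Real.log L ≤ Real.log y := by
    have h1 : Real.log (89 / 100 * L) ≤ Real.log y := Real.log_le_log (by positivity) hy89
    rw [Real.log_mul (by norm_num) hL0.ne'] at h1
    have h2 : -(1 : ℝ) ≤ Real.log (89 / 100) := by
      have := Real.one_sub_inv_le_log_of_pos (show (0 : ℝ) < 89 / 100 by norm_num)
      norm_num at this
      linarith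
    linarith
  have hN2u : (N2 : ℝ) * Real.log y ≤ 12 / 100 * L := by
    have h1 := primes_between y t₀ hyt
    rw [← hN2] at h1
    have h2 := H1 t₀
    have h3 := H2 y
    linarith
  have hlL : 0 < Real.log L := by linarith
  have hkN : (k : ℝ) * N2 ≤ 1 / 2 * y := by
    have h1 : (N2 : ℝ) * (99 / 100 * Real.log L) ≤ 12 / 100 * L := by
      refine le_trans ?_ hN2u
      gcongr
    have h2 : (N2 : ℝ) ≤ 13 / 100 * L / Real.log L := by
      rw [le_div_iff₀ hlL]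
      nlinarith
    calc (k : ℝ) * N2 ≤ (2 * Real.log L) * (13 / 100 * L / Real.log L) := by gcongr
      _ = 26 / 100 * L := by field_simp; norm_num
      _ ≤ 1 / 2 * y := by linarith
  obtain ⟨S, hS1, hS2, hS3⟩ := cands x y t₀ k d hy1 (fun p hp _ hpk => hd p hp hpk)
  rw [← hM, ← hN2] at hS3
  refine ⟨S, hS1, fun n hn j hj p hp hpt => hS2 n hn j hj p hp (hpt.trans htt), ?_⟩
  have h1 : (k : ℝ) * N2 * ((x : ℝ) / (M * y) + 1) ≤ 1 / 2 * ((x : ℝ) / M) + 1 / 2 * y := by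
    calc (k : ℝ) * N2 * ((x : ℝ) / (M * y) + 1) ≤ (1 / 2 * y) * ((x : ℝ) / (M * y) + 1) := by gcongr
      _ = 1 / 2 * ((x : ℝ) / M) + 1 / 2 * y := by field_simp
  have h2 : (x : ℝ) ^ (9 / 100 : ℝ) ≤ (x : ℝ) / M := by
    rw [le_div_iff₀ hM0]
    calc (x : ℝ) ^ (9 / 100 : ℝ) * M ≤ (x : ℝ) ^ (9 / 100 : ℝ) * (x : ℝ) ^ (91 / 100 : ℝ) := by gcongr
      _ = x := by
          rw [← Real.rpow_add hx0]
          norm_num
  have h3 : (x : ℝ) ^ (9 / 100 : ℝ) = (x : ℝ) ^ (1 / 20 : ℝ) * (x : ℝ) ^ (4 / 100 : ℝ) := by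
    rw [← Real.rpow_add hx0]
    norm_num
  have h4 : 0 < (x : ℝ) ^ (1 / 20 : ℝ) := by positivity
  have h5 : 4 * (x : ℝ) ^ (1 / 20 : ℝ) ≤ (x : ℝ) ^ (9 / 100 : ℝ) := by
    rw [h3]
    nlinarith
  linarith

/-- the class of `1` -/
theorem cands_one (x t k d : ℕ) (hd : ∀ p, p.Prime → p ≤ t → p ∣ d) :
    ∃ S ⊆ Ioc x (x + x), (∀ n ∈ S, ∀ j < k, ∀ p, p.Prime → p ≤ t → ¬ p ∣ n + j * d) ∧
      (x : ℝ) / primorial t - 1 ≤ S.card := by
  refine ⟨(Ioc x (x + x)).filter (fun n => n ≡ 1 [MOD primorial t]), filter_subset _ _, ?_,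
    (count_class x (primorial t) 1 (primorial_pos t)).1⟩
  intro n hn j _ p hp hpt hdvd
  rw [mem_filter] at hn
  have h1 : n ≡ 1 [MOD p] := hn.2.of_dvd (dvd_prim hp hpt)
  have h2 : p ∣ j * d := (hd p hp hpt).mul_left j
  have h3 : p ∣ n := (Nat.dvd_add_left h2).1 hdvd
  have h4 : p ∣ 1 := (h1.dvd_iff dvd_rfl).1 h3
  exact hp.one_lt.ne' (Nat.dvd_one.1 h4)

end Pool.Agent.U839.Ru
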