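import Mathlib
import Pool.Agent.U839.Rg.Ev

set_option autoImplicit false

/-! # The event that a progression is a run of consecutive chosen numbers -/

open MeasureTheory ProbabilityTheory Filter Finset Topology

namespace Pool.Agent.U839.Ru

open Pool.Agent.U839.Sv (BB mixed mixed_prod)
open Pool.Agent.U839.Rg (BB_meas one_sub_ge)

variable {Ω : Type*} [MeasurableSpace Ω] {μ : Measure Ω} [IsProbabilityMeasure μ]

/-- the progression `n, n + d, …` of `k` terms -/
def PP (k d n : ℕ) : Set ℕ := {m | ∃ j, j < k ∧ m = n + j * d}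

/-- among `n, …, n + (k - 1) d` exactly the `n + j d` are chosen -/
def PE (E : ℕ → Set Ω) (k d n : ℕ) : Set Ω := ⋂ m ∈ Icc n (n + (k - 1) * d), BB E (PP k d n) m

omit [MeasurableSpace Ω] in
theorem PE_mem {E : ℕ → Set Ω} {k d n : ℕ} {ω : Ω} : ω ∈ PE E k d n ↔
    ∀ m, n ≤ m → m ≤ n + (k - 1) * d → (ω ∈ E m ↔ ∃ j, j < k ∧ m = n + j * d) := by
  classical
  unfold PE BB PP
  simp only [Set.mem_iInter, Finset.mem_Icc, Set.mem_ofPred_eq]
  constructor
  · intro h m h1 h2
    have h3 := h m ⟨h1, h2⟩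
    split_ifs at h3 with h4
    · exact ⟨fun _ => h4, fun _ => h3⟩
    · exact ⟨fun h5 => absurd h5 h3, fun h5 => absurd h5 h4⟩
  · rintro h m ⟨h1, h2⟩
    have h3 := h m h1 h2
    split_ifs with h4
    · exact h3.2 h4
    · intro h5
      exact h4 (h3.1 h5)

theorem PE_meas {E : ℕ → Set Ω} (hm : ∀ n, MeasurableSet (E n)) (k d n : ℕ) :
    MeasurableSet (PE E k d n) :=
  Finset.measurableSet_biInter _ (fun m _ => BB_meas hm _ m)

open Classical in
theorem PP_card (k d n : ℕ) (U : Finset ℕ) : (U.filter (fun m => m ∈ PP k d n)).card ≤ k := by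
  have h1 : U.filter (fun m => m ∈ PP k d n) ⊆ (range k).image (fun j => n + j * d) := by
    intro m hm
    rw [Finset.mem_filter] at hm
    obtain ⟨j, hj, hjm⟩ := hm.2
    rw [Finset.mem_image]
    exact ⟨j, Finset.mem_range.2 hj, hjm.symm⟩
  exact (card_le_card h1).trans (card_image_le.trans (by rw [card_range]))

/-- lower bound for the probability -/
theorem PE_low {E : ℕ → Set Ω} (hm : ∀ n, MeasurableSet (E n)) (hE : iIndepSet E μ) (k d n : ℕ)
    (c : ℝ) (hc0 : 0 < c) (hc1 : c ≤ 1) (hc : ∀ j < k, c ≤ μ.real (E (n + j * d)))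
    (hs : ∀ m ∈ Icc n (n + (k - 1) * d), μ.real (E m) ≤ 1 / 2) :
    c ^ k * Real.exp (-∑ m ∈ Icc n (n + (k - 1) * d), (μ.real (E m) + 2 * μ.real (E m) ^ 2)) ≤
      μ.real (PE E k d n) := by
  classical
  unfold PE
  rw [mixed_prod hE]
  have h1 : ∀ m ∈ Icc n (n + (k - 1) * d), (if m ∈ PP k d n then c else 1) *
      Real.exp (-(μ.real (E m) + 2 * μ.real (E m) ^ 2)) ≤ μ.real (BB E (PP k d n) m) := by
    intro m hmm
    unfold BB
    have h2 : Real.exp (-(μ.real (E m) + 2 * μ.real (E m) ^ 2)) ≤ 1 := by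
      rw [Real.exp_le_one_iff]
      have : 0 ≤ μ.real (E m) + 2 * μ.real (E m) ^ 2 := by positivity
      linarith
    split_ifs with h3
    · obtain ⟨j, hj, rfl⟩ := h3
      have h4 := hc j hj
      nlinarith [Real.exp_pos (-(μ.real (E (n + j * d)) + 2 * μ.real (E (n + j * d)) ^ 2))]
    · rw [probReal_compl_eq_one_sub (hm m), one_mul]
      exact one_sub_ge _ measureReal_nonneg (hs m hmm)
  refine le_trans ?_ (Finset.prod_le_prod (fun m _ => ?_) h1)
  · rw [Finset.prod_mul_distrib, ← Real.exp_sum, Finset.sum_neg_distrib]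
    apply mul_le_mul_of_nonneg_right _ (Real.exp_pos _).le
    rw [Finset.prod_ite, Finset.prod_const, Finset.prod_const, one_pow, mul_one]
    exact pow_le_pow_of_le_one hc0.le hc1 (PP_card k d n _)
  · apply mul_nonneg _ (Real.exp_pos _).le
    split_ifs <;> linarith

/-- upper bound for the probability: the chosen numbers -/
theorem PE_up {E : ℕ → Set Ω} (hE : iIndepSet E μ) (k d n : ℕ) (hd : 0 < d)
    (c : ℝ) (hc : ∀ j < k, μ.real (E (n + j * d)) ≤ c) :
    μ.real (PE E k d n) ≤ c ^ k := by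
  classical
  have h1 : PE E k d n ⊆ ⋂ m ∈ (range k).image (fun j => n + j * d), E m := by
    intro ω hω
    rw [PE_mem] at hω
    simp only [Set.mem_iInter, Finset.mem_image, Finset.mem_range]
    rintro m ⟨j, hj, rfl⟩
    have h2 : j * d ≤ (k - 1) * d := Nat.mul_le_mul_right d (by omega)
    exact (hω (n + j * d) (by omega) (by omega)).2 ⟨j, hj, rfl⟩
  refine (measureReal_mono h1 (measure_ne_top _ _)).trans ?_
  have h2 := hE.meas_biInter ((range k).image (fun j => n + j * d))
  have h3 : μ.real (⋂ m ∈ (range k).image (fun j => n + j * d), E m) =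
      ∏ m ∈ (range k).image (fun j => n + j * d), μ.real (E m) := by
    simp only [measureReal_def]
    rw [h2, ENNReal.toReal_prod]
  rw [h3, Finset.prod_image (fun i _ j _ hij =>
    Nat.eq_of_mul_eq_mul_right hd (Nat.add_left_cancel hij))]
  calc ∏ j ∈ range k, μ.real (E (n + j * d)) ≤ ∏ j ∈ range k, c :=
        Finset.prod_le_prod (fun _ _ => measureReal_nonneg) (fun j hj => hc j (Finset.mem_range.1 hj))
    _ = c ^ k := by rw [Finset.prod_const, card_range]

/-- upper bound for the probability: the other numbers -/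
theorem PE_up' {E : ℕ → Set Ω} (hm : ∀ n, MeasurableSet (E n)) (hE : iIndepSet E μ) (k d n : ℕ)
    (c : ℝ) (hc : ∀ j < k, μ.real (E (n + j * d)) ≤ c) (hc0 : 0 ≤ c) :
    μ.real (PE E k d n) ≤ Real.exp (k * c - ∑ m ∈ Icc n (n + (k - 1) * d), μ.real (E m)) := by
  classical
  unfold PE
  rw [mixed_prod hE]
  have h1 : ∀ m ∈ Icc n (n + (k - 1) * d), μ.real (BB E (PP k d n) m) ≤
      Real.exp ((if m ∈ PP k d n then c else 0) - μ.real (E m)) := by
    intro m hmm
    unfold BB
    split_ifs with h3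
    · obtain ⟨j, hj, rfl⟩ := h3
      have h4 := hc j hj
      have h5 : μ.real (E (n + j * d)) ≤ 1 := Pool.Agent.U839.Fb.real_le_one _
      have h6 : (1 : ℝ) ≤ Real.exp (c - μ.real (E (n + j * d))) := by
        apply Real.one_le_exp
        linarith
      linarith
    · rw [probReal_compl_eq_one_sub (hm m)]
      have := Real.add_one_le_exp (0 - μ.real (E m))
      linarith
  refine (Finset.prod_le_prod (fun _ _ => measureReal_nonneg) h1).trans ?_
  rw [← Real.exp_sum, Finset.sum_sub_distrib]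
  apply Real.exp_le_exp.2
  have h2 : ∑ m ∈ Icc n (n + (k - 1) * d), (if m ∈ PP k d n then c else 0) ≤ k * c := by
    rw [← Finset.sum_filter, Finset.sum_const, nsmul_eq_mul]
    apply mul_le_mul_of_nonneg_right _ hc0
    exact_mod_cast PP_card k d n _
  linarith

omit [IsProbabilityMeasure μ] in
/-- disjoint windows -/
theorem PE_indep {E : ℕ → Set Ω} (hE : iIndepSet E μ) (k d i j : ℕ) (hij : i + (k - 1) * d < j) :
    μ.real (PE E k d i ∩ PE E k d j) = μ.real (PE E k d i) * μ.real (PE E k d j) := by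
  classical
  obtain ⟨w, hw⟩ : ∃ w, w = (k - 1) * d := ⟨_, rfl⟩
  obtain ⟨S, hS⟩ : ∃ S : Set ℕ, S = {m | (m ≤ i + w ∧ m ∈ PP k d i) ∨ (j ≤ m ∧ m ∈ PP k d j)} := ⟨_, rfl⟩
  have e1 : PE E k d i = ⋂ m ∈ Icc i (i + w), BB E S m := by
    unfold PE
    rw [← hw]
    apply Set.iInter₂_congr
    intro m hm
    rw [Finset.mem_Icc] at hm
    unfold BB
    have : m ∈ PP k d i ↔ m ∈ S := by
      rw [hS]
      simp only [Set.mem_ofPred_eq]
      constructor
      · intro h
        exact Or.inl ⟨hm.2, h⟩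
      · rintro (h | h)
        · exact h.2
        · exfalso
          omega
    simp only [this]
  have e2 : PE E k d j = ⋂ m ∈ Icc j (j + w), BB E S m := by
    unfold PE
    rw [← hw]
    apply Set.iInter₂_congr
    intro m hm
    rw [Finset.mem_Icc] at hm
    unfold BB
    have : m ∈ PP k d j ↔ m ∈ S := by
      rw [hS]
      simp only [Set.mem_ofPred_eq]
      constructor
      · intro h
        exact Or.inr ⟨hm.1, h⟩
      · rintro (h | h)
        · exfalso
          omega
        · exact h.2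
    simp only [this]
  have e3 : PE E k d i ∩ PE E k d j = ⋂ m ∈ (Icc i (i + w) ∪ Icc j (j + w)), BB E S m := by
    rw [e1, e2]
    ext ω
    simp only [Set.mem_inter_iff, Set.mem_iInter, Finset.mem_union]
    constructor
    · rintro ⟨h1, h2⟩ m (hm | hm)
      · exact h1 m hm
      · exact h2 m hm
    · intro h1
      exact ⟨fun m hm => h1 m (Or.inl hm), fun m hm => h1 m (Or.inr hm)⟩
  rw [e3, mixed_prod hE, Finset.prod_union (by
    rw [Finset.disjoint_left]
    intro m hm1 hm2
    rw [Finset.mem_Icc] at hm1 hm2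
    omega), ← mixed_prod hE, ← mixed_prod hE, ← e1, ← e2]

/-- it is unlikely that none of the events happens -/
theorem none_le {E : ℕ → Set Ω} (hm : ∀ n, MeasurableSet (E n)) (hE : iIndepSet E μ) (k d : ℕ)
    (S : Finset ℕ) (hS : ∀ i ∈ S, ∀ j ∈ S, i < j → i + (k - 1) * d < j)
    (hpos : 0 < ∑ n ∈ S, μ.real (PE E k d n)) :
    μ.real {ω | ∀ n ∈ S, ω ∉ PE E k d n} ≤ 4 / ∑ n ∈ S, μ.real (PE E k d n) := by
  classical
  obtain ⟨M, hM⟩ : ∃ M, M = ∑ n ∈ S, μ.real (PE E k d n) := ⟨_, rfl⟩
  have hV : ∑ i ∈ S, ∑ j ∈ S, (μ.real (PE E k d i ∩ PE E k d j) - μ.real (PE E k d i) * μ.real (PE E k d j)) ≤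
      M := by
    rw [hM]
    apply Finset.sum_le_sum
    intro i hi
    have h2 : ∀ j ∈ S, μ.real (PE E k d i ∩ PE E k d j) - μ.real (PE E k d i) * μ.real (PE E k d j) ≤
        (if j = i then μ.real (PE E k d i) else 0) := by
      intro j hj
      by_cases c1 : j = i
      · rw [if_pos c1, c1, Set.inter_self]
        have k2 : 0 ≤ μ.real (PE E k d i) * μ.real (PE E k d i) := by positivity
        linarith
      · rw [if_neg c1]
        rcases Nat.lt_or_gt_of_ne c1 with h4 | h4
        · rw [Set.inter_comm, mul_comm, PE_indep hE k d j i (hS j hj i hi h4), sub_self]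
        · rw [PE_indep hE k d i j (hS i hi j hj h4), sub_self]
    refine (Finset.sum_le_sum h2).trans ?_
    rw [Finset.sum_ite_eq', if_pos hi]
  have h := Pool.Agent.U839.Wg.sm (μ := μ) S (PE E k d) (fun n _ => PE_meas hm k d n) M hpos hV
  rw [← hM] at hpos h ⊢
  have hsub : {ω | ∀ n ∈ S, ω ∉ PE E k d n} ⊆
      {ω | ((S.filter (fun i => ω ∈ PE E k d i)).card : ℝ) ≤ M / 2} := by
    intro ω hω
    simp only [Set.mem_ofPred_eq] at hω ⊢
    rw [Finset.filter_eq_empty_iff.2 (fun n hn => hω n hn), Finset.card_empty, Nat.cast_zero]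
    positivity
  refine (measureReal_mono hsub (measure_ne_top _ _)).trans (h.trans (le_of_eq ?_))
  field_simp

end Pool.Agent.U839.Ru
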