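import Mathlib
import Pool.Agent.U839.Ru.Pat
import Pool.Agent.U839.Ru.Cand
import Pool.Agent.U839.Rg.Occ

set_option autoImplicit false

/-! # Long runs exist -/

open MeasureTheory ProbabilityTheory Filter Finset Topology

namespace Pool.Agent.U839.Ru

open Pool.Agent.U839.Thin (tlog)
open Pool.Agent.U839.Rg (UB fT_one log2_le)
open Pool.Agent.U839.Sv (W W_ge_one fT fT_nonneg Sieved law' dens T_small)

variable {Ω : Type*} [MeasurableSpace Ω] {μ : Measure Ω} [IsProbabilityMeasure μ]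

set_option maxHeartbeats 4000000 in
/-- the expected number of runs is large -/
theorem mean_large (T : ℕ → ℕ) (hT : Monotone T)
    (hTs : ∀ ε : ℝ, 0 < ε → ∀ᶠ n : ℕ in atTop, (T n : ℝ) ≤ (n : ℝ) ^ ε) (C : ℝ) (hC : 1 ≤ C)
    (hUB : UB T C) {E : ℕ → Set Ω} (h : Sieved μ E T) (k d : ℕ → ℕ)
    (hk2 : ∀ᶠ x : ℕ in atTop, (k x : ℝ) * Real.log (2 * Real.log x) ≤ 1 / 100 * Real.log x)
    (hkd : ∀ᶠ x : ℕ in atTop, ((k x * d x : ℕ) : ℝ) ≤ 1 / (400 * C) * (Real.log x) ^ 2)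
    (hcand : ∀ᶠ x : ℕ in atTop, ∃ S ⊆ Ioc x (x + x), (∀ n ∈ S, ∀ j < k x, ∀ p, p.Prime → p ≤ T (3 * x) →
      ¬ p ∣ n + j * d x) ∧ (x : ℝ) ^ (1 / 20 : ℝ) ≤ S.card) :
    ∀ᶠ x : ℕ in atTop, ∃ S ⊆ Ioc x (x + x), (∀ i ∈ S, ∀ j ∈ S, i < j → i + (k x - 1) * d x < j) ∧
      (x : ℝ) ^ (1 / 100 : ℝ) ≤ ∑ n ∈ S, μ.real (PE E (k x) (d x) n) := by
  classical
  have hC0 : 0 < C := by linarith
  obtain ⟨n₀, hn₀⟩ := eventually_atTop.1 ((law' h hTs).and ((dens T hTs (1 / 10) (by norm_num)).and hUB))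
  have e5 : ∀ᶠ x : ℕ in atTop, (2000 : ℝ) ≤ (Real.log x) ^ (1 / 2 : ℝ) :=
    ((tendsto_rpow_atTop (by norm_num)).comp tlog).eventually_ge_atTop _
  filter_upwards [eventually_ge_atTop n₀, hk2, hkd, hcand, e5,
    Pool.Agent.U839.Sv.log_sq_small 1 (1 / 200) (by norm_num) (by norm_num), tlog.eventually_ge_atTop 2,
    Pool.Agent.U839.Rg.sq_le_self, eventually_ge_atTop 4] with x g1 g2 g3 g4 g5 g6 g7 g8 g9
  obtain ⟨L, hL⟩ : ∃ L, L = Real.log x := ⟨_, rfl⟩
  obtain ⟨K, hK⟩ : ∃ K, K = k x := ⟨_, rfl⟩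
  obtain ⟨D, hD⟩ : ∃ D, D = d x := ⟨_, rfl⟩
  obtain ⟨w, hw⟩ : ∃ w, w = (K - 1) * D := ⟨_, rfl⟩
  rw [← hL] at g2 g3 g5 g6 g7 g8
  rw [← hK] at g2
  rw [← hK, ← hD] at g3 g4
  rw [← hK, ← hD]
  have hx4 : (4 : ℝ) ≤ x := by exact_mod_cast g9
  have hx0 : (0 : ℝ) < x := by linarith
  have hL0 : 0 < L := by linarith
  have hwKD : w ≤ K * D := by
    rw [hw]
    exact Nat.mul_le_mul_right D (Nat.sub_le K 1)
  have hwL : (w : ℝ) ≤ 1 / (400 * C) * L ^ 2 := le_trans (by exact_mod_cast hwKD) g3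
  have hw1 : (w : ℝ) ≤ 1 * L ^ 2 := by
    refine hwL.trans ?_
    apply mul_le_mul_of_nonneg_right _ (sq_nonneg L)
    rw [div_le_iff₀ (by positivity)]
    linarith
  have hwx : w ≤ x := by
    have : (w : ℝ) ≤ x := by nlinarith [sq_nonneg L]
    exact_mod_cast this
  obtain ⟨S, hS1, hS2, hS3⟩ := g4
  obtain ⟨r, hr⟩ := Pool.Agent.U839.Thin.residue S (w + 1) (Nat.succ_pos _)
  obtain ⟨S', hS'⟩ : ∃ S', S' = S.filter (fun n => n % (w + 1) = r) := ⟨_, rfl⟩
  rw [← hS'] at hr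
  refine ⟨S', by rw [hS']; exact (filter_subset _ _).trans hS1, ?_, ?_⟩
  · intro i hi j hj hij
    rw [hS', mem_filter] at hi hj
    have h5 : i ≡ j [MOD (w + 1)] := by
      unfold Nat.ModEq
      rw [hi.2, hj.2]
    have h7 := (Nat.modEq_iff_dvd' hij.le).1 h5
    have h8 := Nat.le_of_dvd (by omega) h7
    rw [← hw]
    omega
  -- the number of candidates
  have hcard : (x : ℝ) ^ (9 / 200 : ℝ) ≤ S'.card := by
    have h1 : (S.card : ℝ) ≤ ((w : ℝ) + 1) * S'.card := by exact_mod_cast hr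
    have h2 : (w : ℝ) + 1 ≤ (x : ℝ) ^ (1 / 200 : ℝ) := by linarith
    have h3 : (x : ℝ) ^ (1 / 20 : ℝ) = (x : ℝ) ^ (1 / 200 : ℝ) * (x : ℝ) ^ (9 / 200 : ℝ) := by
      rw [← Real.rpow_add hx0]
      norm_num
    have h4 : 0 < (x : ℝ) ^ (1 / 200 : ℝ) := by positivity
    have h5 : (x : ℝ) ^ (1 / 200 : ℝ) * (x : ℝ) ^ (9 / 200 : ℝ) ≤ (x : ℝ) ^ (1 / 200 : ℝ) * S'.card := by
      rw [← h3]
      refine hS3.trans (h1.trans ?_)
      gcongr
    exact le_of_mul_le_mul_left h5 h4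
  have hlogn : ∀ m : ℕ, x ≤ m → m ≤ 3 * x → L ≤ Real.log m ∧ Real.log m ≤ 2 * L := by
    intro m hm1 hm2
    have hm0 : (x : ℝ) ≤ m := by exact_mod_cast hm1
    have hm3 : (m : ℝ) ≤ 3 * x := by exact_mod_cast hm2
    refine ⟨by rw [hL]; exact Real.log_le_log hx0 hm0, ?_⟩
    calc Real.log m ≤ Real.log (x * x) := Real.log_le_log (by linarith) (by nlinarith)
      _ = 2 * L := by rw [Real.log_mul hx0.ne' hx0.ne', hL]; ring
  have hρ : ∀ m, x ≤ m → μ.real (E m) = fT T m / Real.log m := fun m hm => (hn₀ m (by omega)).1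
  have hρε : ∀ m, x ≤ m → μ.real (E m) ≤ 1 / 10 := fun m hm => by
    rw [hρ m hm]; exact (hn₀ m (by omega)).2.1
  -- the probability of one event
  have hone : ∀ n ∈ S', (x : ℝ) ^ (-(35 / 1000) : ℝ) ≤ μ.real (PE E K D n) := by
    intro n hn
    rw [hS', mem_filter] at hn
    have hn1 := mem_Ioc.1 (hS1 hn.1)
    have hn2 := hS2 n hn.1
    have h1 := PE_low (μ := μ) h.meas h.indep K D n (1 / (2 * L)) (by positivity) (by
      rw [div_le_one (by linarith)]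
      linarith) (fun j hj => by
        have h2 : j * D ≤ w := by
          rw [hw]
          exact Nat.mul_le_mul_right D (by omega)
        rw [hρ _ (by omega)]
        have h3 := hlogn (n + j * D) (by omega) (by omega)
        have h4 : 1 ≤ fT T (n + j * D) :=
          fT_one (t := T (3 * x)) (hT (by omega)) (fun p hp hpt => hn2 j hj p hp hpt)
        rw [div_le_div_iff₀ (by positivity) (by linarith [h3.1])]
        nlinarith [h3.1, h3.2]) (fun m hm => by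
        rw [mem_Icc] at hm
        exact (hρε m (by omega)).trans (by norm_num))
    rw [← hw] at h1
    refine le_trans ?_ h1
    have hsum : ∑ m ∈ Icc n (n + w), (μ.real (E m) + 2 * μ.real (E m) ^ 2) ≤ 1 / 50 * L := by
      have k1 : ∀ m ∈ Icc n (n + w), μ.real (E m) + 2 * μ.real (E m) ^ 2 ≤
          (3 / 2) * (fT T m / L) := by
        intro m hm
        rw [mem_Icc] at hm
        have k2 := hρε m (by omega)
        have k3 : 0 ≤ μ.real (E m) := measureReal_nonneg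
        have k4 : μ.real (E m) ≤ fT T m / L := by
          rw [hρ m (by omega)]
          exact div_le_div_of_nonneg_left (fT_nonneg T m) hL0 (hlogn m (by omega) (by omega)).1
        calc μ.real (E m) + 2 * μ.real (E m) ^ 2 ≤ (3 / 2) * μ.real (E m) := by nlinarith
          _ ≤ (3 / 2) * (fT T m / L) := by gcongr
      have k0 : Icc n (n + w) = insert n (Ioc n (n + w)) := by
        ext m
        simp only [mem_insert, mem_Icc, mem_Ioc]
        omega
      rw [k0, sum_insert (by rw [mem_Ioc]; omega)]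
      have k11 : μ.real (E n) + 2 * μ.real (E n) ^ 2 ≤ 1 := by
        have k2 := hρε n (by omega)
        have k3 : 0 ≤ μ.real (E n) := measureReal_nonneg
        nlinarith
      have k12 : ∑ m ∈ Ioc n (n + w), (μ.real (E m) + 2 * μ.real (E m) ^ 2) ≤
          3 / 2 * ((C * w + (Real.log n) ^ (3 / 2 : ℝ)) / L) := by
        refine (Finset.sum_le_sum (fun m hm => k1 m (by
          rw [k0]
          exact mem_insert_of_mem hm))).trans ?_
        rw [← Finset.mul_sum, ← Finset.sum_div]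
        have k5 := (hn₀ n (by omega)).2.2 w (by
          have := (hlogn n hn1.1.le (by omega)).1
          nlinarith)
        gcongr
      have k6 : (Real.log n) ^ (3 / 2 : ℝ) ≤ 3 * (L * L ^ (1 / 2 : ℝ)) := by
        have k7 := (hlogn n hn1.1.le (by omega)).2
        have k8 : 0 ≤ Real.log n := Real.log_natCast_nonneg n
        have k9 : (2 : ℝ) ^ (3 / 2 : ℝ) ≤ 3 := by
          have : (2 : ℝ) ^ (3 / 2 : ℝ) = Real.sqrt 8 := by
            rw [Real.sqrt_eq_rpow, show (8 : ℝ) = 2 ^ (3 : ℝ) by norm_num, ← Real.rpow_mul (by norm_num)]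
            norm_num
          rw [this, Real.sqrt_le_left (by norm_num)]
          norm_num
        calc (Real.log n) ^ (3 / 2 : ℝ) ≤ (2 * L) ^ (3 / 2 : ℝ) := Real.rpow_le_rpow k8 k7 (by norm_num)
          _ = 2 ^ (3 / 2 : ℝ) * L ^ (3 / 2 : ℝ) := Real.mul_rpow (by norm_num) hL0.le
          _ = 2 ^ (3 / 2 : ℝ) * (L * L ^ (1 / 2 : ℝ)) := by
              congr 1
              nth_rewrite 2 [← Real.rpow_one L]
              rw [← Real.rpow_add hL0]
              norm_num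
          _ ≤ 3 * (L * L ^ (1 / 2 : ℝ)) := by gcongr
      obtain ⟨q, hq⟩ : ∃ q, q = L ^ (1 / 2 : ℝ) := ⟨_, rfl⟩
      rw [← hq] at k6 g5
      have hqq : q * q = L := by
        rw [hq, ← Real.rpow_add hL0]
        norm_num
      have k10 : (C * w + (Real.log n) ^ (3 / 2 : ℝ)) / L ≤ 1 / 400 * L + 3 * q := by
        rw [div_le_iff₀ hL0]
        have k13 : C * (w : ℝ) ≤ 1 / 400 * L ^ 2 := by
          calc C * (w : ℝ) ≤ C * (1 / (400 * C) * L ^ 2) := by gcongr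
            _ = 1 / 400 * L ^ 2 := by field_simp
        nlinarith
      have k14 : 3 / 2 * ((C * w + (Real.log n) ^ (3 / 2 : ℝ)) / L) ≤ 3 / 2 * (1 / 400 * L + 3 * q) := by gcongr
      have k15 : 2000 * q ≤ L := by nlinarith
      nlinarith
    have hpw : Real.exp (-(1 / 100 * L)) ≤ (1 / (2 * L)) ^ K := by
      have e : (1 / (2 * L)) ^ K = Real.exp (-(K * Real.log (2 * L))) := by
        rw [← Real.rpow_natCast, Real.rpow_def_of_pos (by positivity), one_div, Real.log_inv]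
        congr 1
        ring
      rw [e]
      apply Real.exp_le_exp.2
      linarith
    calc (x : ℝ) ^ (-(35 / 1000) : ℝ) ≤ Real.exp (-(1 / 100 * L)) * Real.exp (-(1 / 50 * L)) := by
          rw [Real.rpow_def_of_pos hx0, ← hL, ← Real.exp_add]
          apply Real.exp_le_exp.2
          linarith
      _ ≤ _ := by
          apply mul_le_mul hpw _ (Real.exp_pos _).le (by positivity)
          apply Real.exp_le_exp.2
          linarith
  calc (x : ℝ) ^ (1 / 100 : ℝ) = (x : ℝ) ^ (9 / 200 : ℝ) * (x : ℝ) ^ (-(35 / 1000) : ℝ) := by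
        rw [← Real.rpow_add hx0]
        norm_num
    _ ≤ S'.card * (x : ℝ) ^ (-(35 / 1000) : ℝ) := by gcongr
    _ = ∑ n ∈ S', (x : ℝ) ^ (-(35 / 1000) : ℝ) := by rw [sum_const, nsmul_eq_mul]
    _ ≤ ∑ n ∈ S', μ.real (PE E K D n) := sum_le_sum hone

/-- almost surely long runs exist -/
theorem low (T : ℕ → ℕ) (hT : Monotone T)
    (hTs : ∀ ε : ℝ, 0 < ε → ∀ᶠ n : ℕ in atTop, (T n : ℝ) ≤ (n : ℝ) ^ ε) (C : ℝ) (hC : 1 ≤ C)
    (hUB : UB T C) {E : ℕ → Set Ω} (h : Sieved μ E T) (k d : ℕ → ℕ)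
    (hk2 : ∀ᶠ x : ℕ in atTop, (k x : ℝ) * Real.log (2 * Real.log x) ≤ 1 / 100 * Real.log x)
    (hkd : ∀ᶠ x : ℕ in atTop, ((k x * d x : ℕ) : ℝ) ≤ 1 / (400 * C) * (Real.log x) ^ 2)
    (hcand : ∀ᶠ x : ℕ in atTop, ∃ S ⊆ Ioc x (x + x), (∀ n ∈ S, ∀ j < k x, ∀ p, p.Prime → p ≤ T (3 * x) →
      ¬ p ∣ n + j * d x) ∧ (x : ℝ) ^ (1 / 20 : ℝ) ≤ S.card) :
    ∀ᵐ ω ∂μ, ∀ᶠ j : ℕ in atTop, ∃ n, 2 ^ j < n ∧ n ≤ 2 ^ j + 2 ^ j ∧
      ω ∈ PE E (k (2 ^ j)) (d (2 ^ j)) n := by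
  classical
  have hpow : Tendsto (fun j : ℕ => 2 ^ j) atTop atTop := tendsto_pow_atTop_atTop_of_one_lt (by norm_num)
  obtain ⟨j₀, hj₀⟩ := eventually_atTop.1 (hpow.eventually
    (mean_large (μ := μ) T hT hTs C hC hUB h k d hk2 hkd hcand))
  obtain ⟨B, hB⟩ : ∃ B : ℕ → Set Ω, B = fun j =>
    {ω | ∀ n, 2 ^ j < n → n ≤ 2 ^ j + 2 ^ j → ω ∉ PE E (k (2 ^ j)) (d (2 ^ j)) n} := ⟨_, rfl⟩
  have hsingle : ∀ j, j₀ ≤ j → μ.real (B j) ≤ 4 * ((2 : ℝ) ^ (-(1 / 100) : ℝ)) ^ j := by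
    intro j hj
    obtain ⟨S, hS, hSd, hSm⟩ := hj₀ j hj
    have hx0 : (0 : ℝ) < ((2 ^ j : ℕ) : ℝ) := by positivity
    have hpos : 0 < ∑ n ∈ S, μ.real (PE E (k (2 ^ j)) (d (2 ^ j)) n) := lt_of_lt_of_le (by positivity) hSm
    have h1 := none_le (μ := μ) h.meas h.indep _ _ S hSd hpos
    have h2 : B j ⊆ {ω | ∀ n ∈ S, ω ∉ PE E (k (2 ^ j)) (d (2 ^ j)) n} := by
      intro ω hω n hn
      rw [hB] at hω
      have h3 := mem_Ioc.1 (hS hn)
      exact hω n h3.1 h3.2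
    calc μ.real (B j) ≤ μ.real {ω | ∀ n ∈ S, ω ∉ PE E (k (2 ^ j)) (d (2 ^ j)) n} :=
          measureReal_mono h2 (measure_ne_top _ _)
      _ ≤ 4 / ∑ n ∈ S, μ.real (PE E (k (2 ^ j)) (d (2 ^ j)) n) := h1
      _ ≤ 4 / ((2 ^ j : ℕ) : ℝ) ^ (1 / 100 : ℝ) := by gcongr
      _ = 4 * ((2 : ℝ) ^ (-(1 / 100) : ℝ)) ^ j := by
          push_cast
          rw [← Real.rpow_natCast, ← Real.rpow_mul (by norm_num), ← Real.rpow_natCast,
            ← Real.rpow_mul (by norm_num), div_eq_mul_inv, ← Real.rpow_neg (by norm_num)]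
          congr 2
          ring
  have hsum : Summable (fun j : ℕ => μ.real (B j)) := by
    have h1 : Summable (fun j : ℕ => 4 * ((2 : ℝ) ^ (-(1 / 100) : ℝ)) ^ j) := by
      apply Summable.mul_left
      apply summable_geometric_of_lt_one (by positivity)
      exact Real.rpow_lt_one_of_one_lt_of_neg (by norm_num) (by norm_num)
    refine Summable.of_norm_bounded_eventually_nat h1 ?_
    filter_upwards [eventually_ge_atTop j₀] with j hj
    rw [Real.norm_of_nonneg measureReal_nonneg]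
    exact hsingle j hj
  filter_upwards [Pool.Agent.U839.Fb.borel hsum] with ω hω
  filter_upwards [hω] with j hj
  by_contra hcon
  push Not at hcon
  apply hj
  rw [hB]
  exact hcon

end Pool.Agent.U839.Ru
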