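import Mathlib
import Pool.Agent.U839.Ru.Low

set_option autoImplicit false

/-! # Runs of consecutive elements -/

open MeasureTheory ProbabilityTheory Filter Finset Topology

namespace Pool.Agent.U839.Ru

open Pool.Agent.U839.Thin (tlog)

variable {Ω : Type*}

/-- the length of the longest run of consecutive elements of `Q` up to `X` in arithmetic progression -/
noncomputable def LR (Q : Set ℕ) (X : ℕ) : ℕ :=
  sSup {k | ∃ i d, ∀ j < k, Nat.nth (· ∈ Q) (i + j) = Nat.nth (· ∈ Q) i + j * d ∧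
    Nat.nth (· ∈ Q) (i + j) ≤ X}

theorem LR_bdd (Q : Set ℕ) (hQ : Q.Infinite) (X : ℕ) : X + 1 ∈ upperBounds
    {k | ∃ i d, ∀ j < k, Nat.nth (· ∈ Q) (i + j) = Nat.nth (· ∈ Q) i + j * d ∧
      Nat.nth (· ∈ Q) (i + j) ≤ X} := by
  have hQ' : (Set.ofPred (· ∈ Q)).Infinite := hQ
  have hmono := Nat.nth_strictMono hQ'
  rintro k ⟨i, d, h⟩
  by_contra hcon
  push Not at hcon
  have h1 := (h (k - 1) (by omega)).2
  have h2 : i + (k - 1) ≤ Nat.nth (· ∈ Q) (i + (k - 1)) := hmono.id_le _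
  omega

theorem LR_ge (Q : Set ℕ) (hQ : Q.Infinite) (X k i d : ℕ)
    (h : ∀ j < k, Nat.nth (· ∈ Q) (i + j) = Nat.nth (· ∈ Q) i + j * d ∧
      Nat.nth (· ∈ Q) (i + j) ≤ X) : k ≤ LR Q X :=
  le_csSup ⟨X + 1, LR_bdd Q hQ X⟩ ⟨i, d, h⟩

/-- the event gives a run -/
theorem run_of_PE {E : ℕ → Set Ω} {ω : Ω} (Q : Set ℕ) (hQd : Q = {n | ω ∈ E n}) (hQ : Q.Infinite)
    (k d n : ℕ) (hd : 0 < d) (h : ω ∈ PE E k d n) : ∃ i, ∀ j < k,
      Nat.nth (· ∈ Q) (i + j) = n + j * d := by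
  classical
  have hQ' : (Set.ofPred (· ∈ Q)).Infinite := hQ
  have hmono := Nat.nth_strictMono hQ'
  rw [PE_mem] at h
  have hmem : ∀ m, m ∈ Q ↔ ω ∈ E m := fun m => by rw [hQd]; rfl
  refine ⟨Nat.count (· ∈ Q) n, fun j => ?_⟩
  induction j with
  | zero =>
    intro hj
    have hn : n ∈ Q := (hmem n).2 ((h n le_rfl (by omega)).2 ⟨0, hj, by omega⟩)
    rw [zero_mul, add_zero, add_zero]
    exact Nat.nth_count (p := (· ∈ Q)) hn
  | succ j ih =>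
    intro hj
    have h1 := ih (by omega)
    have hw : (j + 1) * d ≤ (k - 1) * d := Nat.mul_le_mul_right d (by omega)
    have h2 : n + (j + 1) * d ∈ Q := (hmem _).2 ((h _ (by omega) (by omega)).2 ⟨j + 1, hj, rfl⟩)
    have h3 : Nat.nth (· ∈ Q) (Nat.count (· ∈ Q) (n + (j + 1) * d)) = n + (j + 1) * d :=
      Nat.nth_count (p := (· ∈ Q)) h2
    have hjd : (j + 1) * d = j * d + d := by ring
    have h4 : Nat.count (· ∈ Q) n + j < Nat.count (· ∈ Q) (n + (j + 1) * d) := by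
      rw [← hmono.lt_iff_lt, h1, h3]
      omega
    have h5 : Nat.nth (· ∈ Q) (Nat.count (· ∈ Q) n + (j + 1)) ≤ n + (j + 1) * d := by
      rw [← h3]
      exact hmono.monotone h4
    have h6 : n + j * d < Nat.nth (· ∈ Q) (Nat.count (· ∈ Q) n + (j + 1)) := by
      rw [← h1]
      exact hmono (by omega)
    have h7 : Nat.nth (· ∈ Q) (Nat.count (· ∈ Q) n + (j + 1)) ∈ Q := Nat.nth_mem_of_infinite hQ' _
    obtain ⟨j', hj', hj'e⟩ := (h _ (by omega) (by omega)).1 ((hmem _).1 h7)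
    rw [hj'e] at h5 h6 ⊢
    have h8 : j' ≤ j + 1 := Nat.le_of_mul_le_mul_right (by omega : j' * d ≤ (j + 1) * d) hd
    have h9 : j < j' := Nat.lt_of_mul_lt_mul_right (by omega : j * d < j' * d)
    have h10 : j' = j + 1 := by omega
    rw [h10]

/-- a run gives the event -/
theorem PE_of_run {E : ℕ → Set Ω} {ω : Ω} (Q : Set ℕ) (hQd : Q = {n | ω ∈ E n}) (hQ : Q.Infinite)
    (k d i : ℕ) (hk : 0 < k) (h : ∀ j < k, Nat.nth (· ∈ Q) (i + j) = Nat.nth (· ∈ Q) i + j * d) :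
    ω ∈ PE E k d (Nat.nth (· ∈ Q) i) := by
  classical
  have hQ' : (Set.ofPred (· ∈ Q)).Infinite := hQ
  have hmono := Nat.nth_strictMono hQ'
  rw [PE_mem]
  have hmem : ∀ m, m ∈ Q ↔ ω ∈ E m := fun m => by rw [hQd]; rfl
  intro m h1 h2
  rw [← hmem]
  constructor
  · intro hm
    have h3 : Nat.nth (· ∈ Q) (Nat.count (· ∈ Q) m) = m := Nat.nth_count (p := (· ∈ Q)) hm
    have h4 : i ≤ Nat.count (· ∈ Q) m := by
      rw [← hmono.le_iff_le, h3]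
      exact h1
    have h5 : Nat.count (· ∈ Q) m ≤ i + (k - 1) := by
      rw [← hmono.le_iff_le, h3, h (k - 1) (by omega)]
      exact h2
    refine ⟨Nat.count (· ∈ Q) m - i, by omega, ?_⟩
    rw [← h _ (by omega : Nat.count (· ∈ Q) m - i < k)]
    have : i + (Nat.count (· ∈ Q) m - i) = Nat.count (· ∈ Q) m := by omega
    rw [this, h3]
  · rintro ⟨j, hj, rfl⟩
    rw [← h j hj]
    exact Nat.nth_mem_of_infinite hQ' _

theorem prime_hits (p a d : ℕ) (hp : p.Prime) (hd : ¬ p ∣ d) : ∃ j < p, p ∣ a + j * d := by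
  have : Fact p.Prime := ⟨hp⟩
  have hd0 : (d : ZMod p) ≠ 0 := by
    intro h
    exact hd ((ZMod.natCast_eq_zero_iff d p).1 h)
  refine ⟨(-(a : ZMod p) / d).val, ZMod.val_lt _, ?_⟩
  rw [← ZMod.natCast_eq_zero_iff]
  push_cast
  rw [ZMod.natCast_zmod_val, div_mul_cancel₀ _ hd0]
  ring

/-- small primes divide the difference -/
theorem dvd_diff (T : ℕ → ℕ) (hT : Monotone T) (Q : Set ℕ) (hQ : Q.Infinite) (m₀ : ℕ)
    (hs : ∀ m ∈ Q, m₀ ≤ m → ∀ p, p.Prime → p ≤ T m → ¬ p ∣ m) (k d i : ℕ)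
    (hi : m₀ ≤ Nat.nth (· ∈ Q) i)
    (h : ∀ j < k, Nat.nth (· ∈ Q) (i + j) = Nat.nth (· ∈ Q) i + j * d) (p : ℕ) (hp : p.Prime)
    (hpk : p ≤ k) (hpT : p ≤ T (Nat.nth (· ∈ Q) i)) : p ∣ d := by
  have hQ' : (Set.ofPred (· ∈ Q)).Infinite := hQ
  by_contra hcon
  obtain ⟨j, hj, hdvd⟩ := prime_hits p (Nat.nth (· ∈ Q) i) d hp hcon
  have h1 := h j (by omega)
  have h2 : Nat.nth (· ∈ Q) (i + j) ∈ Q := Nat.nth_mem_of_infinite hQ' _
  rw [h1] at h2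
  exact hs _ h2 (by omega) p hp (hpT.trans (hT (by omega))) hdvd

theorem prim_dvd (m d : ℕ) (h : ∀ p, p.Prime → p ≤ m → p ∣ d) : primorial m ∣ d := by
  rw [prim_pr]
  apply Finset.prod_primes_dvd
  · intro p hp
    rw [mem_filter] at hp
    exact hp.2.prime
  · intro p hp
    rw [mem_filter, mem_Ioc] at hp
    exact h p hp.2 hp.1.2

/-- upper bounds for the longest run -/
theorem LR_up (Q : Set ℕ) (hQ : Q.Infinite) (f : ℕ → ℝ) (n₀ : ℕ)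
    (hf : ∀ a b, n₀ ≤ a → a ≤ b → f a ≤ f b) (hf0 : ∀ a, n₀ ≤ a → 0 ≤ f a)
    (h : ∀ i d K, n₀ ≤ Nat.nth (· ∈ Q) i → 0 < K →
      (∀ j < K, Nat.nth (· ∈ Q) (i + j) = Nat.nth (· ∈ Q) i + j * d) → (K : ℝ) ≤ f (Nat.nth (· ∈ Q) i))
    (X : ℕ) (hX : n₀ ≤ X) : (LR Q X : ℝ) ≤ n₀ + f X := by
  have hQ' : (Set.ofPred (· ∈ Q)).Infinite := hQ
  have hmono := Nat.nth_strictMono hQ'
  have h1 : LR Q X ∈ {k | ∃ i d, ∀ j < k, Nat.nth (· ∈ Q) (i + j) = Nat.nth (· ∈ Q) i + j * d ∧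
      Nat.nth (· ∈ Q) (i + j) ≤ X} :=
    Nat.sSup_mem ⟨0, 0, 0, by simp⟩ ⟨X + 1, LR_bdd Q hQ X⟩
  obtain ⟨k, hk⟩ : ∃ k, k = LR Q X := ⟨_, rfl⟩
  rw [← hk] at h1 ⊢
  obtain ⟨i, d, h2⟩ := h1
  rcases Nat.lt_or_ge n₀ k with h3 | h3
  · have h4 : n₀ ≤ Nat.nth (· ∈ Q) (i + n₀) := (Nat.le_add_left _ _).trans (hmono.id_le _)
    have h5 := h (i + n₀) d (k - n₀) h4 (by omega) (fun j hj => by
      rw [(h2 n₀ h3).1, show i + n₀ + j = i + (n₀ + j) by ring, (h2 (n₀ + j) (by omega)).1]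
      ring)
    have h6 : f (Nat.nth (· ∈ Q) (i + n₀)) ≤ f X := hf _ _ h4 (h2 n₀ h3).2
    rw [Nat.cast_sub h3.le] at h5
    linarith
  · have h4 : (k : ℝ) ≤ n₀ := by exact_mod_cast h3
    have := hf0 X hX
    linarith

/-- lower bounds for the longest run -/
theorem LR_low {E : ℕ → Set Ω} {ω : Ω} (Q : Set ℕ) (hQd : Q = {n | ω ∈ E n}) (hQ : Q.Infinite)
    (k d : ℕ → ℕ) (hd : ∀ x, 0 < d x) (hkd : ∀ᶠ x : ℕ in atTop, k x * d x ≤ x)
    (h : ∀ᶠ j : ℕ in atTop, ∃ n, 2 ^ j < n ∧ n ≤ 2 ^ j + 2 ^ j ∧ ω ∈ PE E (k (2 ^ j)) (d (2 ^ j)) n) :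
    ∀ᶠ X : ℕ in atTop, ∃ x : ℕ, x ≤ X ∧ X < 8 * x ∧ k x ≤ LR Q X := by
  have hpow : Tendsto (fun j : ℕ => 2 ^ j) atTop atTop := tendsto_pow_atTop_atTop_of_one_lt (by norm_num)
  obtain ⟨j₀, hj₀⟩ := eventually_atTop.1 (h.and (hpow.eventually hkd))
  filter_upwards [eventually_ge_atTop (2 ^ (j₀ + 2))] with X hX
  have hX4 : 4 ≤ X := by
    have : 2 ^ 2 ≤ 2 ^ (j₀ + 2) := Nat.pow_le_pow_right (by norm_num) (by omega)
    omega
  obtain ⟨j, hj1, hj2⟩ : ∃ j, 2 ^ (j + 2) ≤ X ∧ X < 2 ^ (j + 3) := by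
    have h4 : 2 ≤ Nat.log 2 X := by
      apply Nat.le_log_of_pow_le (by norm_num)
      omega
    refine ⟨Nat.log 2 X - 2, ?_, ?_⟩
    · have : Nat.log 2 X - 2 + 2 = Nat.log 2 X := by omega
      rw [this]
      exact Nat.pow_log_le_self 2 (by omega)
    · have : Nat.log 2 X - 2 + 3 = Nat.log 2 X + 1 := by omega
      rw [this]
      exact Nat.lt_pow_succ_log_self (by norm_num) X
  have hjj : j₀ ≤ j := by
    by_contra hcon2
    push Not at hcon2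
    have : 2 ^ (j + 3) ≤ 2 ^ (j₀ + 2) := Nat.pow_le_pow_right (by norm_num) (by omega)
    omega
  obtain ⟨⟨n, h1, h2, h3⟩, h4⟩ := hj₀ j hjj
  obtain ⟨i, hi⟩ := run_of_PE Q hQd hQ _ _ n (hd _) h3
  have hp : 2 ^ (j + 2) = 4 * 2 ^ j := by ring
  have hp3 : 2 ^ (j + 3) = 8 * 2 ^ j := by ring
  refine ⟨2 ^ j, by omega, by omega, LR_ge Q hQ X _ i (d (2 ^ j)) (fun l hl => ?_)⟩
  have h5 := hi l hl
  have h6 := hi 0 (by omega)
  rw [add_zero, zero_mul, add_zero] at h6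
  rw [h5, h6]
  refine ⟨rfl, ?_⟩
  have h7 : l * d (2 ^ j) ≤ k (2 ^ j) * d (2 ^ j) := Nat.mul_le_mul_right _ hl.le
  omega

/-- long runs imply infinitely many runs of every length -/
theorem inf_runs (Q : Set ℕ) (h : Tendsto (LR Q) atTop atTop) (hQ : Q.Infinite) (k : ℕ) :
    {i | ∃ d, ∀ j < k, Nat.nth (· ∈ Q) (i + j) = Nat.nth (· ∈ Q) i + j * d}.Infinite := by
  rw [Set.infinite_iff_exists_gt]
  intro I
  obtain ⟨X, hX⟩ := (h.eventually_ge_atTop (k + I + 2)).exists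
  have h1 : LR Q X ∈ {k | ∃ i d, ∀ j < k, Nat.nth (· ∈ Q) (i + j) = Nat.nth (· ∈ Q) i + j * d ∧
      Nat.nth (· ∈ Q) (i + j) ≤ X} :=
    Nat.sSup_mem ⟨0, 0, 0, by simp⟩ ⟨X + 1, LR_bdd Q hQ X⟩
  obtain ⟨i, d, h2⟩ := h1
  refine ⟨i + (I + 1), ⟨d, fun j hj => ?_⟩, by omega⟩
  rw [(h2 (I + 1) (by omega)).1, show i + (I + 1) + j = i + (I + 1 + j) by ring,
    (h2 (I + 1 + j) (by omega)).1]
  ring

end Pool.Agent.U839.Ru
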