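import Mathlib
import Pool.Agent.U839.Ru.Det

set_option autoImplicit false

/-! # Lower bounds for the longest run -/

open MeasureTheory ProbabilityTheory Filter Finset Topology

namespace Pool.Agent.U839.Ru

open Pool.Agent.U839.Thin (tlog)
open Pool.Agent.U839.Fb (tloglog)
open Pool.Agent.U839.Rg (UB log2_le ub_pow ub_small)
open Pool.Agent.U839.Sv (W W_ge_one fT fT_nonneg Sieved law' dens T_small)

variable {Ω : Type*} [MeasurableSpace Ω] {μ : Measure Ω} [IsProbabilityMeasure μ]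

/-- polynomials are smaller than exponentials -/
theorem mul_exp (K c : ℝ) (hc : 0 < c) : ∀ᶠ u : ℝ in atTop, K * u ≤ Real.exp (c * u) := by
  have h1 := (isLittleO_pow_exp_pos_mul_atTop 1 hc).bound (show (0 : ℝ) < 1 / (|K| + 1) by positivity)
  filter_upwards [h1, eventually_ge_atTop 0] with u g1 g2
  rw [Real.norm_of_nonneg (by positivity), Real.norm_of_nonneg (Real.exp_pos _).le, pow_one] at g1
  have h2 : (|K| + 1) * u ≤ Real.exp (c * u) := by
    calc (|K| + 1) * u ≤ (|K| + 1) * (1 / (|K| + 1) * Real.exp (c * u)) := by gcongr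
      _ = Real.exp (c * u) := by field_simp
  have h3 := le_abs_self K
  nlinarith

theorem sq_exp (K c : ℝ) (hc : 0 < c) : ∀ᶠ u : ℝ in atTop, K * u ^ 2 ≤ Real.exp (c * u) := by
  have h1 := (isLittleO_pow_exp_pos_mul_atTop 2 hc).bound (show (0 : ℝ) < 1 / (|K| + 1) by positivity)
  filter_upwards [h1, eventually_ge_atTop 0] with u g1 g2
  rw [Real.norm_of_nonneg (by positivity), Real.norm_of_nonneg (Real.exp_pos _).le] at g1
  have h2 : (|K| + 1) * u ^ 2 ≤ Real.exp (c * u) := by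
    calc (|K| + 1) * u ^ 2 ≤ (|K| + 1) * (1 / (|K| + 1) * Real.exp (c * u)) := by gcongr
      _ = Real.exp (c * u) := by field_simp
  have h3 := le_abs_self K
  nlinarith [sq_nonneg u]

theorem loglog_shift : ∀ᶠ X : ℕ in atTop, ∀ x : ℕ, X < 8 * x →
    Real.log X ≤ 2 * Real.log x ∧ Real.log (Real.log X) ≤ Real.log (Real.log x) + 1 := by
  filter_upwards [tlog.eventually_ge_atTop 10, eventually_ge_atTop 1] with X g1 g2 x hx
  have hX0 : (0 : ℝ) < X := by exact_mod_cast g2
  have hx1 : (X : ℝ) ≤ 8 * x := by exact_mod_cast hx.le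
  have hx0 : (0 : ℝ) < x := by linarith
  have h1 : Real.log X ≤ Real.log 8 + Real.log x := by
    rw [← Real.log_mul (by norm_num) hx0.ne']
    exact Real.log_le_log hX0 hx1
  have h2 : Real.log 8 ≤ 3 := by
    have : Real.log 8 = 3 * Real.log 2 := by
      rw [show (8 : ℝ) = 2 ^ 3 by norm_num, Real.log_pow]
      norm_num
    rw [this]
    have := Real.log_two_lt_d9
    linarith
  refine ⟨by linarith, ?_⟩
  have h3 : Real.log (Real.log X) ≤ Real.log (2 * Real.log x) := Real.log_le_log (by linarith) (by linarith)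
  rw [Real.log_mul (by norm_num) (by linarith)] at h3
  have := Real.log_two_lt_d9
  linarith

/-- lower bound for all sieves up to `log n` -/
theorem low1 (T : ℕ → ℕ) (hT : Monotone T) (hT1 : ∀ᶠ n : ℕ in atTop, (T n : ℝ) ≤ Real.log n)
    {E : ℕ → Set Ω} (h : Sieved μ E T) (ε : ℝ) (hε : 0 < ε) (hε1 : ε < 1) :
    ∀ᵐ ω ∂μ, ∀ᶠ X : ℕ in atTop, (2 - ε) * Real.log (Real.log X) ≤ LR {n | ω ∈ E n} X := by
  have hT1' : ∀ᶠ n : ℕ in atTop, (T n : ℝ) ≤ (Real.log n) ^ (1 : ℝ) := by
    filter_upwards [hT1] with n hn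
    rwa [Real.rpow_one]
  have hTs := Pool.Agent.U839.Sv.sub_pow T 1 hT1'
  obtain ⟨C, hC, hUB⟩ := ub_pow 1 one_pos
  have hUBT := hUB T hT hT1'
  have hC0 : 0 < C := by linarith
  obtain ⟨C1, hC1, H1⟩ := prim_le (ε / 8) (by positivity)
  obtain ⟨k, hk⟩ : ∃ k : ℕ → ℕ, k = fun x : ℕ => ⌊(2 - ε / 2) * Real.log (Real.log x)⌋₊ := ⟨_, rfl⟩
  have hku : ∀ x : ℕ, 0 ≤ Real.log (Real.log x) → (k x : ℝ) ≤ (2 - ε / 2) * Real.log (Real.log x) := by
    intro x hx
    rw [hk]
    exact Nat.floor_le (mul_nonneg (by linarith) hx)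
  have hkl : ∀ x : ℕ, (2 - ε / 2) * Real.log (Real.log x) < k x + 1 := by
    intro x
    rw [hk]
    exact Nat.lt_floor_add_one _
  have hk2 : ∀ᶠ x : ℕ in atTop, (k x : ℝ) * Real.log (2 * Real.log x) ≤ 1 / 100 * Real.log x := by
    filter_upwards [tloglog.eventually (sq_exp 400 1 one_pos), tloglog.eventually_ge_atTop 1,
      tlog.eventually_gt_atTop 0] with x g1 g2 g3
    rw [one_mul, Real.exp_log g3] at g1
    have h1 := hku x (by linarith)
    have h2 : Real.log (2 * Real.log x) ≤ 2 * Real.log (Real.log x) := by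
      rw [Real.log_mul (by norm_num) g3.ne']
      have := Real.log_two_lt_d9
      linarith
    have h3 : (k x : ℝ) ≤ 2 * Real.log (Real.log x) := by nlinarith
    have h20 : 0 ≤ Real.log (2 * Real.log x) := by
      have h21 : 1 < Real.log x := (Real.log_pos_iff g3.le).1 (by linarith)
      exact Real.log_nonneg (by linarith)
    calc (k x : ℝ) * Real.log (2 * Real.log x) ≤
        (2 * Real.log (Real.log x)) * (2 * Real.log (Real.log x)) := by gcongr
      _ = 1 / 100 * (400 * Real.log (Real.log x) ^ 2) := by ring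
      _ ≤ 1 / 100 * Real.log x := by gcongr
  have hkd : ∀ᶠ x : ℕ in atTop, ((k x * primorial (k x) : ℕ) : ℝ) ≤ 1 / (400 * C) * (Real.log x) ^ 2 := by
    filter_upwards [tloglog.eventually (mul_exp (800 * C * Real.exp C1) (ε / 4) (by positivity)),
      tloglog.eventually_ge_atTop 1, tlog.eventually_gt_atTop 0] with x g1 g2 g3
    obtain ⟨u, hu⟩ : ∃ u, u = Real.log (Real.log x) := ⟨_, rfl⟩
    have h1 := hku x (by linarith)
    rw [← hu] at g1 g2 h1
    have hLu : Real.log x = Real.exp u := by rw [hu, Real.exp_log g3]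
    have h2 := H1 (k x)
    have hp0 : (0 : ℝ) < primorial (k x) := by exact_mod_cast primorial_pos _
    have h3 : (primorial (k x) : ℝ) ≤ Real.exp ((2 - ε / 4) * u + C1) := by
      rw [← Real.log_le_iff_le_exp hp0]
      refine h2.trans ?_
      have : (1 + ε / 8) * (k x : ℝ) ≤ (1 + ε / 8) * ((2 - ε / 2) * u) := by gcongr
      nlinarith [mul_pos hε hε]
    have h4 : (k x : ℝ) ≤ 2 * u := by nlinarith
    push_cast
    calc (k x : ℝ) * primorial (k x) ≤ (2 * u) * Real.exp ((2 - ε / 4) * u + C1) := by gcongr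
      _ = 1 / (400 * C) * ((800 * C * Real.exp C1 * u) * Real.exp ((2 - ε / 4) * u)) := by
          rw [Real.exp_add]
          field_simp
          ring
      _ ≤ 1 / (400 * C) * (Real.exp (ε / 4 * u) * Real.exp ((2 - ε / 4) * u)) := by gcongr
      _ = 1 / (400 * C) * (Real.log x) ^ 2 := by
          rw [hLu, ← Real.exp_add, ← Real.exp_nat_mul]
          congr 2
          push_cast
          ring
  have h3m : Tendsto (fun x : ℕ => 3 * x) atTop atTop := tendsto_id.const_mul_atTop' (by norm_num)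
  have hcand : ∀ᶠ x : ℕ in atTop, ∃ S ⊆ Ioc x (x + x), (∀ n ∈ S, ∀ j < k x, ∀ p, p.Prime →
      p ≤ T (3 * x) → ¬ p ∣ n + j * primorial (k x)) ∧ (x : ℝ) ^ (1 / 20 : ℝ) ≤ S.card := by
    filter_upwards [cands_log, h3m.eventually hT1, tloglog.eventually_ge_atTop 0,
      tlog.eventually_ge_atTop 200, eventually_ge_atTop 1] with x g1 g2 g3 g4 g5
    have hx0 : (0 : ℝ) < x := by exact_mod_cast g5
    refine g1 (k x) (T (3 * x)) (primorial (k x)) ?_ ?_ (fun p hp hpk => dvd_prim hp hpk)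
    · have := hku x g3
      nlinarith
    · refine g2.trans ?_
      push_cast
      rw [Real.log_mul (by norm_num) hx0.ne']
      have h3 : Real.log 3 ≤ 2 := by
        have := Real.log_le_sub_one_of_pos (show (0 : ℝ) < 3 by norm_num)
        linarith
      linarith
  filter_upwards [low (μ := μ) T hT hTs C hC hUBT h k (fun x => primorial (k x)) hk2 hkd hcand,
    Pool.Agent.U839.Sv.inf h hT hTs] with ω h1 h2
  have hkd' : ∀ᶠ x : ℕ in atTop, k x * primorial (k x) ≤ x := by
    filter_upwards [hkd, Pool.Agent.U839.Rg.sq_le_self] with x g1 g2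
    have h3 : 1 / (400 * C) * (Real.log x) ^ 2 ≤ 4 * (Real.log x) ^ 2 := by
      apply mul_le_mul_of_nonneg_right _ (sq_nonneg _)
      rw [div_le_iff₀ (by positivity)]
      linarith
    have h4 : ((k x * primorial (k x) : ℕ) : ℝ) ≤ x := by linarith
    exact_mod_cast h4
  filter_upwards [LR_low _ rfl h2 k (fun x => primorial (k x)) (fun x => primorial_pos _) hkd' h1,
    loglog_shift, tloglog.eventually_ge_atTop (6 / ε)] with X g1 g2 g3
  obtain ⟨x, hx1, hx2, hx3⟩ := g1
  have h3 := hkl x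
  have h4 := (g2 x hx2).2
  have h5 : (k x : ℝ) ≤ LR {n | ω ∈ E n} X := by exact_mod_cast hx3
  rw [div_le_iff₀ hε] at g3
  nlinarith

/-- lower bound for small sieves -/
theorem low3 (T : ℕ → ℕ) (hT : Monotone T) (τ : ℝ) (hτ0 : 0 ≤ τ)
    (hTτ : Tendsto (fun n : ℕ => (T n : ℝ) / Real.log (Real.log n)) atTop (𝓝 τ))
    {E : ℕ → Set Ω} (h : Sieved μ E T) (e : ℝ) (he : 0 < e) (he1 : e < 1) (he2 : e < 2 - τ) :
    ∀ᵐ ω ∂μ, ∀ᶠ X : ℕ in atTop, 1 / 4 * (Real.log X) ^ e ≤ LR {n | ω ∈ E n} X := by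
  have hTθ : ∀ θ : ℝ, 0 < θ → ∀ᶠ n : ℕ in atTop, (T n : ℝ) ≤ (Real.log n) ^ θ := by
    intro θ hθ
    filter_upwards [hTτ.eventually (gt_mem_nhds (show τ < τ + 1 by linarith)),
      tloglog.eventually (mul_exp (τ + 1) θ hθ), tloglog.eventually_gt_atTop 0,
      tlog.eventually_gt_atTop 0] with n g1 g2 g3 g4
    rw [div_lt_iff₀ g3] at g1
    refine g1.le.trans (g2.trans (le_of_eq ?_))
    rw [Real.rpow_def_of_pos g4, mul_comm]
  have hT1' := hTθ 1 one_pos
  have hTs := Pool.Agent.U839.Sv.sub_pow T 1 hT1'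
  have hUBT := ub_small T hT hTθ 1 one_pos
  obtain ⟨η, hη, hη1⟩ : ∃ η : ℝ, 0 < η ∧ e + (1 + η) * (τ + η) + η < 2 := by
    refine ⟨min 1 ((2 - τ - e) / (2 * (τ + 4))), by
      apply lt_min one_pos
      apply div_pos <;> linarith, ?_⟩
    obtain ⟨η, hη⟩ : ∃ η, η = min 1 ((2 - τ - e) / (2 * (τ + 4))) := ⟨_, rfl⟩
    rw [← hη]
    have h1 : η ≤ 1 := by rw [hη]; exact min_le_left _ _
    have h2 : η ≤ (2 - τ - e) / (2 * (τ + 4)) := by rw [hη]; exact min_le_right _ _
    have h0 : 0 < η := by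
      rw [hη]
      apply lt_min one_pos
      apply div_pos <;> linarith
    rw [le_div_iff₀ (by linarith)] at h2
    nlinarith
  obtain ⟨C1, hC1, H1⟩ := prim_le η hη
  have h3m : Tendsto (fun x : ℕ => 3 * x) atTop atTop := tendsto_id.const_mul_atTop' (by norm_num)
  obtain ⟨k, hk⟩ : ∃ k : ℕ → ℕ, k = fun x : ℕ => ⌊(Real.log x) ^ e⌋₊ := ⟨_, rfl⟩
  have hku : ∀ x : ℕ, (k x : ℝ) ≤ (Real.log x) ^ e := by
    intro x
    rw [hk]
    exact Nat.floor_le (Real.rpow_nonneg (Real.log_natCast_nonneg x) _)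
  have hkl : ∀ x : ℕ, (Real.log x) ^ e < k x + 1 := by
    intro x
    rw [hk]
    exact Nat.lt_floor_add_one _
  have hk2 : ∀ᶠ x : ℕ in atTop, (k x : ℝ) * Real.log (2 * Real.log x) ≤ 1 / 100 * Real.log x := by
    filter_upwards [tloglog.eventually (mul_exp 200 (1 - e) (by linarith)), tloglog.eventually_ge_atTop 1,
      tlog.eventually_gt_atTop 0] with x g1 g2 g3
    obtain ⟨u, hu⟩ : ∃ u, u = Real.log (Real.log x) := ⟨_, rfl⟩
    have h1 := hku x
    have hLu : Real.log x = Real.exp u := by rw [hu, Real.exp_log g3]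
    have h2 : Real.log (2 * Real.log x) ≤ 2 * Real.log (Real.log x) := by
      rw [Real.log_mul (by norm_num) g3.ne']
      have := Real.log_two_lt_d9
      linarith
    rw [← hu] at g1 g2 h2
    have h3 : (Real.log x) ^ e = Real.exp (e * u) := by
      rw [Real.rpow_def_of_pos g3, ← hu, mul_comm]
    rw [h3] at h1
    have h20 : 0 ≤ Real.log (2 * Real.log x) := by
      have h21 : 1 < Real.log x := (Real.log_pos_iff g3.le).1 (by linarith)
      exact Real.log_nonneg (by linarith)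
    calc (k x : ℝ) * Real.log (2 * Real.log x) ≤ Real.exp (e * u) * (2 * u) := by gcongr
      _ = 1 / 100 * (Real.exp (e * u) * (200 * u)) := by ring
      _ ≤ 1 / 100 * (Real.exp (e * u) * Real.exp ((1 - e) * u)) := by gcongr
      _ = 1 / 100 * Real.log x := by
          rw [hLu, ← Real.exp_add]
          congr 2
          ring
  -- the size of `T (3 x)`
  have hT3 : ∀ᶠ x : ℕ in atTop, (T (3 * x) : ℝ) ≤ (τ + η / 2) * (Real.log (Real.log x) + 1) := by
    filter_upwards [h3m.eventually (hTτ.eventually (gt_mem_nhds (show τ < τ + η / 2 by linarith))),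
      h3m.eventually (tloglog.eventually_gt_atTop 0), h3m.eventually loglog_shift,
      eventually_ge_atTop 1] with x g1 g2 g3 g4
    rw [div_lt_iff₀ g2] at g1
    refine g1.le.trans ?_
    have h1 := (g3 x (by omega)).2
    gcongr
  have hd : ∀ᶠ x : ℕ in atTop, (primorial (T (3 * x)) : ℝ) ≤
      Real.exp ((1 + η) * (τ + η) * Real.log (Real.log x)) := by
    filter_upwards [hT3, tloglog.eventually_ge_atTop (((1 + η) * (τ + η / 2) + C1) / (η / 2))] with x g1 g2
    have hp0 : (0 : ℝ) < primorial (T (3 * x)) := by exact_mod_cast primorial_pos _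
    rw [← Real.log_le_iff_le_exp hp0]
    have h2 := H1 (T (3 * x))
    refine h2.trans ?_
    rw [div_le_iff₀ (by positivity)] at g2
    have h3 : (1 + η) * (T (3 * x) : ℝ) ≤ (1 + η) * ((τ + η / 2) * (Real.log (Real.log x) + 1)) := by gcongr
    have h4 : 0 ≤ Real.log (Real.log x) := by
      have : 0 ≤ Real.log (Real.log x) * (η / 2) := le_trans (by positivity) g2
      nlinarith
    nlinarith [mul_nonneg (mul_pos hη hη).le h4]
  have hkd : ∀ᶠ x : ℕ in atTop, ((k x * primorial (T (3 * x)) : ℕ) : ℝ) ≤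
      1 / (400 * (1 + 1)) * (Real.log x) ^ 2 := by
    filter_upwards [hd, tloglog.eventually (mul_exp 800 η hη),
      tloglog.eventually_ge_atTop 1, tlog.eventually_gt_atTop 0] with x g1 g2 g3 g4
    obtain ⟨u, hu⟩ : ∃ u, u = Real.log (Real.log x) := ⟨_, rfl⟩
    have hLu : Real.log x = Real.exp u := by rw [hu, Real.exp_log g4]
    have h1 := hku x
    have h3 : (Real.log x) ^ e = Real.exp (e * u) := by
      rw [Real.rpow_def_of_pos g4, ← hu, mul_comm]
    rw [h3] at h1
    rw [← hu] at g1 g2 g3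
    have h5 : (800 : ℝ) ≤ Real.exp (η * u) := by nlinarith
    push_cast
    calc (k x : ℝ) * primorial (T (3 * x)) ≤ Real.exp (e * u) * Real.exp ((1 + η) * (τ + η) * u) := by gcongr
      _ = 1 / (400 * (1 + 1)) * ((Real.exp (e * u) * Real.exp ((1 + η) * (τ + η) * u)) * 800) := by ring
      _ ≤ 1 / (400 * (1 + 1)) * ((Real.exp (e * u) * Real.exp ((1 + η) * (τ + η) * u)) * Real.exp (η * u)) := by
          gcongr
      _ ≤ 1 / (400 * (1 + 1)) * (Real.log x) ^ 2 := by
          rw [hLu, ← Real.exp_add, ← Real.exp_add, ← Real.exp_nat_mul]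
          apply mul_le_mul_of_nonneg_left _ (by norm_num)
          apply Real.exp_le_exp.2
          push_cast
          nlinarith
  have hcand : ∀ᶠ x : ℕ in atTop, ∃ S ⊆ Ioc x (x + x), (∀ n ∈ S, ∀ j < k x, ∀ p, p.Prime →
      p ≤ T (3 * x) → ¬ p ∣ n + j * primorial (T (3 * x))) ∧ (x : ℝ) ^ (1 / 20 : ℝ) ≤ S.card := by
    have e1 : ∀ᶠ x : ℕ in atTop, (2 : ℝ) ≤ (x : ℝ) ^ (1 / 20 : ℝ) :=
      ((tendsto_rpow_atTop (by norm_num)).comp tendsto_natCast_atTop_atTop).eventually_ge_atTop _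
    filter_upwards [hd, e1, Pool.Agent.U839.Sv.log_sq_small 1 (1 / 2) (by norm_num) (by norm_num),
      tlog.eventually_ge_atTop 1, eventually_ge_atTop 1, tloglog.eventually_ge_atTop 0] with x g1 g2 g3 g4 g5 g6
    have hx0 : (0 : ℝ) < x := by exact_mod_cast g5
    obtain ⟨S, hS1, hS2, hS3⟩ := cands_one x (T (3 * x)) (k x) (primorial (T (3 * x)))
      (fun p hp hpk => dvd_prim hp hpk)
    refine ⟨S, hS1, hS2, le_trans ?_ hS3⟩
    have hp0 : (0 : ℝ) < primorial (T (3 * x)) := by exact_mod_cast primorial_pos _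
    have h1 : (primorial (T (3 * x)) : ℝ) ≤ (x : ℝ) ^ (1 / 2 : ℝ) := by
      refine g1.trans (le_trans ?_ g3)
      have h2 : Real.exp ((1 + η) * (τ + η) * Real.log (Real.log x)) ≤ (Real.log x) ^ 2 := by
        have : (Real.log x) ^ 2 = Real.exp (2 * Real.log (Real.log x)) := by
          rw [← Real.rpow_natCast, Real.rpow_def_of_pos (by linarith)]
          congr 1
          push_cast
          ring
        rw [this]
        apply Real.exp_le_exp.2
        nlinarith
      linarith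
    have h2 : (x : ℝ) ^ (1 / 2 : ℝ) ≤ (x : ℝ) / primorial (T (3 * x)) := by
      rw [le_div_iff₀ hp0]
      calc (x : ℝ) ^ (1 / 2 : ℝ) * primorial (T (3 * x)) ≤ (x : ℝ) ^ (1 / 2 : ℝ) * (x : ℝ) ^ (1 / 2 : ℝ) := by
            gcongr
        _ = x := by
            rw [← Real.rpow_add hx0]
            norm_num
    have h3 : (x : ℝ) ^ (1 / 10 : ℝ) = (x : ℝ) ^ (1 / 20 : ℝ) * (x : ℝ) ^ (1 / 20 : ℝ) := by
      rw [← Real.rpow_add hx0]
      norm_num
    have h4 : (x : ℝ) ^ (1 / 10 : ℝ) ≤ (x : ℝ) ^ (1 / 2 : ℝ) :=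
      Real.rpow_le_rpow_of_exponent_le (by exact_mod_cast g5) (by norm_num)
    nlinarith
  filter_upwards [low (μ := μ) T hT hTs (1 + 1) (by norm_num) hUBT h k (fun x => primorial (T (3 * x)))
    hk2 hkd hcand, Pool.Agent.U839.Sv.inf h hT hTs] with ω h1 h2
  have hkd' : ∀ᶠ x : ℕ in atTop, k x * primorial (T (3 * x)) ≤ x := by
    filter_upwards [hkd, Pool.Agent.U839.Rg.sq_le_self] with x g1 g2
    have h4 : ((k x * primorial (T (3 * x)) : ℕ) : ℝ) ≤ x := by
      nlinarith [sq_nonneg (Real.log x)]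
    exact_mod_cast h4
  have e1 : ∀ᶠ X : ℕ in atTop, (4 : ℝ) ≤ (Real.log X) ^ e :=
    ((tendsto_rpow_atTop he).comp tlog).eventually_ge_atTop _
  filter_upwards [LR_low _ rfl h2 k (fun x => primorial (T (3 * x))) (fun x => primorial_pos _) hkd' h1,
    loglog_shift, e1] with X g1 g2 g3
  obtain ⟨x, hx1, hx2, hx3⟩ := g1
  have h3 := hkl x
  have h4 := (g2 x hx2).1
  have h5 : (k x : ℝ) ≤ LR {n | ω ∈ E n} X := by exact_mod_cast hx3
  have h6 : (Real.log X) ^ e ≤ 2 * (Real.log x) ^ e := by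
    calc (Real.log X) ^ e ≤ (2 * Real.log x) ^ e :=
          Real.rpow_le_rpow (Real.log_natCast_nonneg X) h4 he.le
      _ = 2 ^ e * (Real.log x) ^ e := Real.mul_rpow (by norm_num) (Real.log_natCast_nonneg x)
      _ ≤ 2 * (Real.log x) ^ e := by
          apply mul_le_mul_of_nonneg_right _ (Real.rpow_nonneg (Real.log_natCast_nonneg x) _)
          calc (2 : ℝ) ^ e ≤ 2 ^ (1 : ℝ) := Real.rpow_le_rpow_of_exponent_le (by norm_num) he1.le
            _ = 2 := Real.rpow_one 2
  linarith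

end Pool.Agent.U839.Ru
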