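import Mathlib
import Pool.Agent.U839.Ru.Asy

set_option autoImplicit false

/-! # Upper bounds for the longest run -/

open MeasureTheory ProbabilityTheory Filter Finset Topology

namespace Pool.Agent.U839.Ru

open Pool.Agent.U839.Thin (tlog)
open Pool.Agent.U839.Fb (tloglog)
open Pool.Agent.U839.Rg (UB log2_le ub_pow ub_small)
open Pool.Agent.U839.Sv (W W_ge_one fT fT_nonneg fT_le Sieved law' dens T_small GS GS_bdd W_bound sum_window)

variable {Ω : Type*} [MeasurableSpace Ω] {μ : Measure Ω} [IsProbabilityMeasure μ]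

omit [IsProbabilityMeasure μ] in
/-- chosen numbers have no small prime factors -/
theorem sifted [IsFiniteMeasure μ] {E : ℕ → Set Ω} {T : ℕ → ℕ} (h : Sieved μ E T) :
    ∀ᵐ ω ∂μ, ∀ m, ω ∈ E m → ∀ p, p.Prime → p ≤ T m → ¬ p ∣ m := by
  rw [ae_all_iff]
  intro m
  by_cases hm : ∀ p : ℕ, p.Prime → p ≤ T m → ¬ p ∣ m
  · exact Filter.Eventually.of_forall (fun ω _ => hm)
  · have h1 : μ.real (E m) = 0 := by
      rw [h.law m]
      unfold fT
      rw [if_neg hm, zero_div]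
      norm_num
    have h2 : μ (E m) = 0 := by
      rw [measureReal_def, ENNReal.toReal_eq_zero_iff] at h1
      exact h1.resolve_right (measure_ne_top _ _)
    filter_upwards [measure_eq_zero_iff_ae_notMem.1 h2] with ω hω hω2
    exact absurd hω2 hω

theorem gap_le (Q : Set ℕ) (hQ : Q.Infinite) (i : ℕ) :
    Nat.nth (· ∈ Q) (i + 1) - Nat.nth (· ∈ Q) i ≤ GS Q (Nat.nth (· ∈ Q) i) :=
  le_csSup (GS_bdd Q hQ _) ⟨i, le_rfl, rfl⟩

/-- the difference of a run is at most the maximal gap -/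
theorem diff_le (Q : Set ℕ) (hQ : Q.Infinite) (i d K : ℕ) (hK : 2 ≤ K)
    (h : ∀ j < K, Nat.nth (· ∈ Q) (i + j) = Nat.nth (· ∈ Q) i + j * d) :
    0 < d ∧ d ≤ GS Q (Nat.nth (· ∈ Q) i) := by
  have hQ' : (Set.ofPred (· ∈ Q)).Infinite := hQ
  have hmono := Nat.nth_strictMono hQ'
  have h1 := h 1 (by omega)
  have h2 := gap_le Q hQ i
  have h3 : Nat.nth (· ∈ Q) i < Nat.nth (· ∈ Q) (i + 1) := hmono (Nat.lt_succ_self i)
  rw [one_mul] at h1
  omega

/-- upper bound for large sieves -/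
theorem up2 (T : ℕ → ℕ) (hT : Monotone T) (Q : Set ℕ) (hQ : Q.Infinite)
    (hs : ∀ m ∈ Q, ∀ p, p.Prime → p ≤ T m → ¬ p ∣ m)
    (hg : ∀ᶠ X : ℕ in atTop, (GS Q X : ℝ) ≤ 2 * (Real.log X) ^ 2) (ε : ℝ)
    (hTl : ∀ᶠ n : ℕ in atTop, (2 + ε) * Real.log (Real.log n) ≤ T n) (e : ℝ) (he : 0 < e) (heε : e ≤ ε)
    (he1 : e ≤ 1) : ∀ᶠ X : ℕ in atTop, (LR Q X : ℝ) ≤ (2 + 2 * e) * Real.log (Real.log X) := by
  have hQ' : (Set.ofPred (· ∈ Q)).Infinite := hQ
  have hmono := Nat.nth_strictMono hQ'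
  obtain ⟨C2, hC2, H2⟩ := prim_ge (e / 8) (by positivity)
  obtain ⟨n₀, hn₀⟩ := eventually_atTop.1 (hg.and (hTl.and ((tloglog.eventually_ge_atTop
    ((4 + C2) / (e / 2))).and ((tloglog.eventually_ge_atTop 1).and (tlog.eventually_ge_atTop 1)))))
  have key := LR_up Q hQ (fun a => (2 + e) * Real.log (Real.log a) + 1) n₀ (by
    intro a b ha hab
    have h1 := (hn₀ a ha).2.2.2.2
    have h2 : Real.log a ≤ Real.log b := by
      apply Real.log_le_log
      · have : a ≠ 0 := by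
          rintro rfl
          norm_num at h1
        exact_mod_cast Nat.pos_of_ne_zero this
      · exact_mod_cast hab
    have h3 : Real.log (Real.log a) ≤ Real.log (Real.log b) := Real.log_le_log (by linarith) h2
    show (2 + e) * Real.log (Real.log a) + 1 ≤ (2 + e) * Real.log (Real.log b) + 1
    nlinarith) (by
    intro a ha
    have h1 := (hn₀ a ha).2.2.2.1
    show 0 ≤ (2 + e) * Real.log (Real.log a) + 1
    nlinarith) (by
    intro i d K hi hK h
    obtain ⟨g1, g2, g3, g4, g5⟩ := hn₀ _ hi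
    obtain ⟨a, ha⟩ : ∃ a, a = Nat.nth (· ∈ Q) i := ⟨_, rfl⟩
    have hdd : ∀ p, p.Prime → p ≤ K → p ≤ T (Nat.nth (· ∈ Q) i) → p ∣ d := fun p hp hpk hpT =>
      dvd_diff T hT Q hQ 0 (fun m hm _ => hs m hm) K d i (Nat.zero_le _) h p hp hpk hpT
    show (K : ℝ) ≤ (2 + e) * Real.log (Real.log (Nat.nth (· ∈ Q) i)) + 1
    rw [← ha] at g1 g2 g3 g4 g5 hdd ⊢
    by_contra hcon
    push Not at hcon
    obtain ⟨u, hu⟩ : ∃ u, u = Real.log (Real.log a) := ⟨_, rfl⟩
    rw [← hu] at g2 g3 g4 hcon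
    have hK2 : 2 ≤ K := by
      have : (2 : ℝ) ≤ K := by nlinarith
      exact_mod_cast this
    obtain ⟨hd0, hd1⟩ := diff_le Q hQ i d K hK2 h
    rw [← ha] at hd1
    obtain ⟨m, hm⟩ : ∃ m, m = ⌊(2 + e) * u⌋₊ := ⟨_, rfl⟩
    have hmu : (m : ℝ) ≤ (2 + e) * u := by rw [hm]; exact Nat.floor_le (by nlinarith)
    have hml : (2 + e) * u < m + 1 := by rw [hm]; exact Nat.lt_floor_add_one _
    have hmK : m ≤ K := by
      have : (m : ℝ) ≤ K := by linarith
      exact_mod_cast this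
    have hmT : m ≤ T a := by
      have : (m : ℝ) ≤ T a := by nlinarith
      exact_mod_cast this
    have h1 : primorial m ∣ d := prim_dvd m d (fun p hp hpm => hdd p hp (hpm.trans hmK) (hpm.trans hmT))
    have h2 : primorial m ≤ d := Nat.le_of_dvd hd0 h1
    have h3 : Real.log (primorial m) ≤ Real.log d :=
      Real.log_le_log (by exact_mod_cast primorial_pos m) (by exact_mod_cast h2)
    have h4 := H2 m
    have h5 : Real.log d ≤ 1 + 2 * u := by
      have h6 : (d : ℝ) ≤ 2 * (Real.log a) ^ 2 := le_trans (by exact_mod_cast hd1) g1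
      have h7 := Real.log_le_log (by exact_mod_cast hd0) h6
      rw [Real.log_mul (by norm_num) (by positivity), Real.log_pow, ← hu] at h7
      have := Real.log_two_lt_d9
      push_cast at h7
      linarith
    rw [div_le_iff₀ (by positivity)] at g3
    have h8 : (1 - e / 8) * ((2 + e) * u - 1) ≤ (1 - e / 8) * m := by
      apply mul_le_mul_of_nonneg_left _ (by linarith)
      linarith
    have h9 : (2 + e / 2) * u ≤ (1 - e / 8) * ((2 + e) * u) := by
      have : 0 ≤ e * (1 - e) * u := mul_nonneg (mul_nonneg he.le (by linarith)) (by linarith)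
      nlinarith
    nlinarith)
  filter_upwards [eventually_ge_atTop n₀, tloglog.eventually_ge_atTop (((n₀ : ℝ) + 1) / e)] with X g1 g2
  have h1 := key X g1
  rw [div_le_iff₀ he] at g2
  have h2 : (LR Q X : ℝ) ≤ n₀ + ((2 + e) * Real.log (Real.log X) + 1) := h1
  linarith

/-- Borel–Cantelli for runs -/
theorem bc {E : ℕ → Set Ω} (k D1 : ℕ → ℕ)
    (hp : ∀ᶠ n : ℕ in atTop, ∀ d : ℕ, 0 < d → D1 n ≤ d → (d : ℝ) ≤ 2 * (Real.log n) ^ 2 →
      μ.real (PE E (k n) d n) ≤ Real.exp (-(4 * Real.log n))) :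
    ∀ᵐ ω ∂μ, ∀ᶠ n : ℕ in atTop, ∀ d : ℕ, 0 < d → D1 n ≤ d → (d : ℝ) ≤ 2 * (Real.log n) ^ 2 →
      ω ∉ PE E (k n) d n := by
  classical
  obtain ⟨G, hG⟩ : ∃ G : ℕ → Finset ℕ, G = fun n : ℕ => (Icc 1 ⌊2 * (Real.log n) ^ 2⌋₊).filter
    (fun d : ℕ => 0 < d ∧ D1 n ≤ d ∧ (d : ℝ) ≤ 2 * (Real.log n) ^ 2) := ⟨_, rfl⟩
  have hsum : Summable (fun n : ℕ => μ.real (⋃ d ∈ G n, PE E (k n) d n)) := by
    have h1 : Summable (fun n : ℕ => 1 / (n : ℝ) ^ 2) := Real.summable_one_div_nat_pow.2 (by norm_num)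
    refine Summable.of_norm_bounded_eventually_nat h1 ?_
    filter_upwards [hp, Pool.Agent.U839.Rg.sq_le_self, eventually_ge_atTop 1] with n g1 g2 g3
    have hn0 : (0 : ℝ) < n := by exact_mod_cast g3
    have hn1 : (1 : ℝ) ≤ n := by exact_mod_cast g3
    rw [Real.norm_of_nonneg measureReal_nonneg]
    have h2 : Real.exp (-(4 * Real.log n)) = 1 / (n : ℝ) ^ 4 := by
      rw [Real.exp_neg, ← one_div]
      congr 1
      have : (4 : ℝ) * Real.log n = ((4 : ℕ) : ℝ) * Real.log n := by norm_num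
      rw [this, Real.exp_nat_mul, Real.exp_log hn0]
    calc μ.real (⋃ d ∈ G n, PE E (k n) d n) ≤ ∑ d ∈ G n, μ.real (PE E (k n) d n) :=
          measureReal_biUnion_finset_le _ _
      _ ≤ ∑ d ∈ G n, 1 / (n : ℝ) ^ 4 := by
          apply Finset.sum_le_sum
          intro d hd
          rw [hG, mem_filter] at hd
          rw [← h2]
          exact g1 d hd.2.1 hd.2.2.1 hd.2.2.2
      _ = (G n).card * (1 / (n : ℝ) ^ 4) := by rw [sum_const, nsmul_eq_mul]
      _ ≤ n * (1 / (n : ℝ) ^ 4) := by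
          apply mul_le_mul_of_nonneg_right _ (by positivity)
          have h3 : (G n).card ≤ ⌊2 * (Real.log n) ^ 2⌋₊ := by
            rw [hG]
            exact (card_filter_le _ _).trans (by rw [Nat.card_Icc]; omega)
          have h4 : (⌊2 * (Real.log n) ^ 2⌋₊ : ℝ) ≤ 2 * (Real.log n) ^ 2 := Nat.floor_le (by positivity)
          have h5 : ((G n).card : ℝ) ≤ ⌊2 * (Real.log n) ^ 2⌋₊ := by exact_mod_cast h3
          nlinarith [sq_nonneg (Real.log n)]
      _ ≤ 1 / (n : ℝ) ^ 2 := by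
          rw [mul_one_div, div_le_div_iff₀ (by positivity) (by positivity), one_mul]
          calc (n : ℝ) * (n : ℝ) ^ 2 = (n : ℝ) ^ 3 := by ring
            _ ≤ (n : ℝ) ^ 4 := pow_le_pow_right₀ hn1 (by norm_num)
  filter_upwards [Pool.Agent.U839.Fb.borel hsum] with ω hω
  filter_upwards [hω] with n hn d hd0 hd1 hd2 hcon
  apply hn
  rw [Set.mem_iUnion₂]
  refine ⟨d, ?_, hcon⟩
  rw [hG, mem_filter, mem_Icc]
  exact ⟨⟨hd0, Nat.le_floor hd2⟩, hd0, hd1, hd2⟩

omit [IsProbabilityMeasure μ] in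
/-- the densities are small -/
theorem rho_up (T : ℕ → ℕ) (hT : Monotone T) (hT1 : ∀ᶠ n : ℕ in atTop, (T n : ℝ) ≤ (Real.log n) ^ (1 : ℝ))
    {E : ℕ → Set Ω} (h : Sieved μ E T) : ∀ᶠ n : ℕ in atTop, ∀ m : ℕ, n ≤ m → m ≤ 2 * n →
      μ.real (E m) ≤ (Real.log n) ^ (-(1 / 2) : ℝ) := by
  obtain ⟨C, hC, hW⟩ := W_bound
  have hTs := Pool.Agent.U839.Sv.sub_pow T 1 hT1
  have hmul : Tendsto (fun n : ℕ => 2 * n) atTop atTop := tendsto_id.const_mul_atTop' (by norm_num)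
  obtain ⟨n₀, hn₀⟩ := eventually_atTop.1 (law' h hTs)
  filter_upwards [eventually_ge_atTop n₀, hmul.eventually hT1, log2_le, tlog.eventually_ge_atTop 1,
    tloglog.eventually (mul_exp (4 * C) (1 / 2) (by norm_num)), tloglog.eventually_ge_atTop 1,
    eventually_ge_atTop 1] with n g1 g2 g3 g4 g5 g6 g7 m hm1 hm2
  have hn0 : (0 : ℝ) < n := by exact_mod_cast g7
  have hL0 : 0 < Real.log n := by linarith
  rw [hn₀ m (by omega)]
  rw [Real.rpow_one] at g2
  have h1 : fT T m ≤ C + C * (Real.log (Real.log n) + 1) := by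
    refine (fT_le T m).trans ((hW (T m)).trans ?_)
    have h2 : Real.log (T m) ≤ Real.log (Real.log n) + 1 := by
      rcases Nat.eq_zero_or_pos (T m) with h3 | h3
      · rw [h3, Nat.cast_zero, Real.log_zero]
        linarith
      · have h4 : (T m : ℝ) ≤ 2 * Real.log n := by
          have : (T m : ℝ) ≤ T (2 * n) := by exact_mod_cast hT hm2
          linarith
        have h5 := Real.log_le_log (by exact_mod_cast h3) h4
        rw [Real.log_mul (by norm_num) hL0.ne'] at h5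
        have := Real.log_two_lt_d9
        linarith
    have := mul_le_mul_of_nonneg_left h2 hC.le
    linarith
  have h6 : fT T m ≤ (Real.log n) ^ (1 / 2 : ℝ) := by
    have h7 : (Real.log n) ^ (1 / 2 : ℝ) = Real.exp (1 / 2 * Real.log (Real.log n)) := by
      rw [Real.rpow_def_of_pos hL0, mul_comm]
    rw [h7]
    refine h1.trans (le_trans ?_ g5)
    nlinarith
  have h8 : Real.log n ≤ Real.log m := Real.log_le_log hn0 (by exact_mod_cast hm1)
  calc fT T m / Real.log m ≤ (Real.log n) ^ (1 / 2 : ℝ) / Real.log n :=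
        div_le_div₀ (by positivity) h6 hL0 h8
    _ = (Real.log n) ^ (-(1 / 2) : ℝ) := by
        rw [div_eq_mul_inv]
        nth_rewrite 2 [← Real.rpow_one (Real.log n)]
        rw [← Real.rpow_neg hL0.le, ← Real.rpow_add hL0]
        norm_num

omit [MeasurableSpace Ω] in
/-- the general upper bound -/
theorem up_gen (T : ℕ → ℕ) (hT : Monotone T) (Q : Set ℕ) (hQ : Q.Infinite)
    (hs : ∀ m ∈ Q, ∀ p, p.Prime → p ≤ T m → ¬ p ∣ m)
    (hg : ∀ᶠ X : ℕ in atTop, (GS Q X : ℝ) ≤ 2 * (Real.log X) ^ 2) (e : ℝ) (he : 0 < e)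
    {E : ℕ → Set Ω} {ω : Ω} (hQd : Q = {n | ω ∈ E n})
    (hTk : ∀ᶠ n : ℕ in atTop, T n ≤ ⌈(Real.log n) ^ e⌉₊)
    (hbc : ∀ᶠ n : ℕ in atTop, ∀ d : ℕ, 0 < d → primorial (T n) ≤ d → (d : ℝ) ≤ 2 * (Real.log n) ^ 2 →
      ω ∉ PE E ⌈(Real.log n) ^ e⌉₊ d n) :
    ∀ᶠ X : ℕ in atTop, (LR Q X : ℝ) ≤ 2 * (Real.log X) ^ e := by
  obtain ⟨n₀, hn₀⟩ := eventually_atTop.1 (hg.and (hTk.and (hbc.and ((tlog.eventually_ge_atTop 2).and
    (((tendsto_rpow_atTop he).comp tlog).eventually_ge_atTop 2)))))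
  have key := LR_up Q hQ (fun a => (Real.log a) ^ e + 1) n₀ (by
    intro a b ha hab
    have h1 := (hn₀ a ha).2.2.2.1
    have h2 : Real.log a ≤ Real.log b := by
      apply Real.log_le_log
      · have : a ≠ 0 := by
          rintro rfl
          norm_num at h1
        exact_mod_cast Nat.pos_of_ne_zero this
      · exact_mod_cast hab
    show (Real.log a) ^ e + 1 ≤ (Real.log b) ^ e + 1
    have := Real.rpow_le_rpow (by linarith) h2 he.le
    linarith) (by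
    intro a ha
    have h1 := (hn₀ a ha).2.2.2.1
    show 0 ≤ (Real.log a) ^ e + 1
    positivity) (by
    intro i d K hi hK h
    obtain ⟨g1, g2, g3, g4, g5⟩ := hn₀ _ hi
    show (K : ℝ) ≤ (Real.log (Nat.nth (· ∈ Q) i)) ^ e + 1
    have g6 : (2 : ℝ) ≤ (Real.log (Nat.nth (· ∈ Q) i)) ^ e := g5
    by_contra hcon
    push Not at hcon
    have hk : ⌈(Real.log (Nat.nth (· ∈ Q) i)) ^ e⌉₊ ≤ K := by
      apply Nat.ceil_le.2
      linarith
    have hk2 : 2 ≤ ⌈(Real.log (Nat.nth (· ∈ Q) i)) ^ e⌉₊ := by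
      have h1 := Nat.le_ceil ((Real.log (Nat.nth (· ∈ Q) i)) ^ e)
      have : (2 : ℝ) ≤ ⌈(Real.log (Nat.nth (· ∈ Q) i)) ^ e⌉₊ := by linarith
      exact_mod_cast this
    obtain ⟨hd0, hd1⟩ := diff_le Q hQ i d K (hk2.trans hk) h
    have h1 : primorial (T (Nat.nth (· ∈ Q) i)) ∣ d := prim_dvd _ d (fun p hp hpm =>
      dvd_diff T hT Q hQ 0 (fun m hm _ => hs m hm) K d i (Nat.zero_le _) h p hp
        (hpm.trans (g2.trans hk)) hpm)
    exact g3 d hd0 (Nat.le_of_dvd hd0 h1) (le_trans (by exact_mod_cast hd1) g1)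
      (PE_of_run Q hQd hQ _ d i (by omega) (fun j hj => h j (by omega))))
  filter_upwards [eventually_ge_atTop n₀,
    ((tendsto_rpow_atTop he).comp tlog).eventually_ge_atTop ((n₀ : ℝ) + 1)] with X g1 g2
  have h1 : (LR Q X : ℝ) ≤ n₀ + ((Real.log X) ^ e + 1) := key X g1
  have h2 : (n₀ : ℝ) + 1 ≤ (Real.log X) ^ e := g2
  linarith

/-- many chosen numbers -/
theorem caseA (T : ℕ → ℕ) (hT : Monotone T) (hT1 : ∀ᶠ n : ℕ in atTop, (T n : ℝ) ≤ (Real.log n) ^ (1 : ℝ))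
    {E : ℕ → Set Ω} (h : Sieved μ E T) (e : ℝ) (he : 1 ≤ e) (he2 : e ≤ 2) :
    ∀ᶠ n : ℕ in atTop, ∀ d : ℕ, 0 < d → primorial (T n) ≤ d → (d : ℝ) ≤ 2 * (Real.log n) ^ 2 →
      μ.real (PE E ⌈(Real.log n) ^ e⌉₊ d n) ≤ Real.exp (-(4 * Real.log n)) := by
  filter_upwards [rho_up T hT hT1 h, tlog.eventually_ge_atTop 1, tloglog.eventually_ge_atTop 8,
    tlog.eventually (show ∀ᶠ L : ℝ in atTop, 4 * L ^ 4 + 4 * L ^ 2 ≤ Real.exp L by
      have h1 := (isLittleO_pow_exp_pos_mul_atTop 4 one_pos).bound (show (0 : ℝ) < 1 / 8 by norm_num)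
      filter_upwards [h1, eventually_ge_atTop 1] with L g1 g2
      rw [Real.norm_of_nonneg (by positivity), Real.norm_of_nonneg (Real.exp_pos _).le, one_mul] at g1
      have : L ^ 2 ≤ L ^ 4 := pow_le_pow_right₀ g2 (by norm_num)
      linarith), eventually_ge_atTop 1] with n g1 g2 g3 g4 g5 d hd0 _ hd2
  obtain ⟨L, hL⟩ : ∃ L, L = Real.log n := ⟨_, rfl⟩
  have hn0 : (0 : ℝ) < n := by exact_mod_cast g5
  rw [Real.exp_log hn0, ← hL] at g4
  rw [← hL] at g1 g2 g3 hd2 ⊢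
  have hL0 : 0 < L := by linarith
  obtain ⟨k, hk⟩ : ∃ k, k = ⌈L ^ e⌉₊ := ⟨_, rfl⟩
  rw [← hk]
  have hkl : L ≤ k := by
    have h1 : L ^ e ≤ k := by rw [hk]; exact Nat.le_ceil _
    refine le_trans ?_ h1
    calc L = L ^ (1 : ℝ) := (Real.rpow_one L).symm
      _ ≤ L ^ e := Real.rpow_le_rpow_of_exponent_le g2 he
  have hku : (k : ℝ) ≤ L ^ 2 + 1 := by
    have h1 : (k : ℝ) < L ^ e + 1 := by rw [hk]; exact Nat.ceil_lt_add_one (by positivity)
    have h2 : L ^ e ≤ L ^ 2 := by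
      rw [← Real.rpow_natCast]
      exact Real.rpow_le_rpow_of_exponent_le g2 (by exact_mod_cast he2)
    linarith
  have h1 := PE_up (μ := μ) h.indep k d n hd0 (L ^ (-(1 / 2) : ℝ)) (fun j hj => by
    apply g1 _ (Nat.le_add_right _ _)
    have h2 : ((j * d : ℕ) : ℝ) ≤ n := by
      push_cast
      calc (j : ℝ) * d ≤ (L ^ 2 + 1) * (2 * L ^ 2) := by
            have : (j : ℝ) ≤ k := by exact_mod_cast hj.le
            gcongr
            linarith
        _ ≤ n := by nlinarith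
    have h3 : j * d ≤ n := by exact_mod_cast h2
    omega)
  refine h1.trans ?_
  rw [← Real.rpow_natCast, ← Real.rpow_mul hL0.le, Real.rpow_def_of_pos hL0]
  apply Real.exp_le_exp.2
  nlinarith

set_option maxHeartbeats 4000000 in
/-- few other numbers -/
theorem caseB (T : ℕ → ℕ) (hT : Monotone T) (hTθ : ∀ θ : ℝ, 0 < θ → ∀ᶠ n : ℕ in atTop, (T n : ℝ) ≤ (Real.log n) ^ θ)
    {E : ℕ → Set Ω} (h : Sieved μ E T) (e s : ℝ) (he : 0 < e) (he1 : e ≤ 1) (hes : 2 < e + s)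
    (hD : ∀ᶠ n : ℕ in atTop, (Real.log n) ^ s ≤ primorial (T n)) :
    ∀ᶠ n : ℕ in atTop, ∀ d : ℕ, 0 < d → primorial (T n) ≤ d → (d : ℝ) ≤ 2 * (Real.log n) ^ 2 →
      μ.real (PE E ⌈(Real.log n) ^ e⌉₊ d n) ≤ Real.exp (-(4 * Real.log n)) := by
  have hT1 := hTθ 1 one_pos
  have hTs := Pool.Agent.U839.Sv.sub_pow T 1 hT1
  have hmul : Tendsto (fun n : ℕ => 2 * n) atTop atTop := tendsto_id.const_mul_atTop' (by norm_num)
  obtain ⟨n₀, hn₀⟩ := eventually_atTop.1 (law' h hTs)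
  have e1 : ∀ᶠ n : ℕ in atTop, (2000 : ℝ) ≤ (Real.log n) ^ (e + s - 2) :=
    ((tendsto_rpow_atTop (by linarith)).comp tlog).eventually_ge_atTop _
  have e2 : ∀ᶠ n : ℕ in atTop, (2 : ℝ) ≤ (Real.log n) ^ e :=
    ((tendsto_rpow_atTop he).comp tlog).eventually_ge_atTop _
  have e3 : ∀ᶠ n : ℕ in atTop, (3 : ℝ) ^ 122 * 2 ≤ (Real.log n) ^ (1 / 2 : ℝ) :=
    ((tendsto_rpow_atTop (by norm_num)).comp tlog).eventually_ge_atTop _
  filter_upwards [rho_up T hT hT1 h, tlog.eventually_ge_atTop 256, hD, e1, e2,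
    hmul.eventually (hTθ (1 / 244) (by norm_num)), log2_le,
    tlog.eventually (show ∀ᶠ L : ℝ in atTop, 4 * L ^ 4 + 4 * L ^ 2 ≤ Real.exp L by
      have h1 := (isLittleO_pow_exp_pos_mul_atTop 4 one_pos).bound (show (0 : ℝ) < 1 / 8 by norm_num)
      filter_upwards [h1, eventually_ge_atTop 1] with L g1 g2
      rw [Real.norm_of_nonneg (by positivity), Real.norm_of_nonneg (Real.exp_pos _).le, one_mul] at g1
      have : L ^ 2 ≤ L ^ 4 := pow_le_pow_right₀ g2 (by norm_num)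
      linarith), eventually_ge_atTop (n₀ + 1), e3] with n g1 g2 g3 g4 g5 g6 g7 g8 g9 g10 d hd0 hd1 hd2
  obtain ⟨L, hL⟩ : ∃ L, L = Real.log n := ⟨_, rfl⟩
  have hn0 : (0 : ℝ) < n := by
    have : 0 < n := by omega
    exact_mod_cast this
  rw [Real.exp_log hn0, ← hL] at g8
  rw [← hL] at g1 g2 g3 g4 g5 g7 g10 hd2 ⊢
  have hL0 : 0 < L := by linarith
  obtain ⟨k, hk⟩ : ∃ k, k = ⌈L ^ e⌉₊ := ⟨_, rfl⟩
  rw [← hk]
  have hkl : L ^ e ≤ k := by rw [hk]; exact Nat.le_ceil _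
  have hku : (k : ℝ) ≤ L ^ 2 + 1 := by
    have h1 : (k : ℝ) < L ^ e + 1 := by rw [hk]; exact Nat.ceil_lt_add_one (by positivity)
    have h2 : L ^ e ≤ L ^ 2 := by
      rw [← Real.rpow_natCast]
      exact Real.rpow_le_rpow_of_exponent_le (by linarith) (by push_cast; linarith)
    linarith
  obtain ⟨w, hw⟩ : ∃ w, w = (k - 1) * d := ⟨_, rfl⟩
  have hk2 : 2 ≤ k := by
    have : (2 : ℝ) ≤ k := by linarith
    exact_mod_cast this
  have hwr : (w : ℝ) = ((k : ℝ) - 1) * d := by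
    rw [hw, Nat.cast_mul, Nat.cast_sub (by omega), Nat.cast_one]
  have hdl : L ^ s ≤ d := g3.trans (by exact_mod_cast hd1)
  have hk2r : (2 : ℝ) ≤ k := by exact_mod_cast hk2
  have hdr : (0 : ℝ) < d := by exact_mod_cast hd0
  have hw1 : (k : ℝ) / 2 * d ≤ w := by
    rw [hwr]
    nlinarith
  have hwn : w ≤ n := by
    have h1 : (w : ℝ) ≤ n := by
      calc (w : ℝ) ≤ k * d := by rw [hwr]; nlinarith
        _ ≤ (L ^ 2 + 1) * (2 * L ^ 2) := by gcongr
        _ ≤ n := by nlinarith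
    exact_mod_cast h1
  -- the length of the window
  have hw2 : 1000 * L ^ 2 ≤ w := by
    have h1 : L ^ e * L ^ s = L ^ (e + s - 2) * L ^ 2 := by
      rw [← Real.rpow_add hL0, ← Real.rpow_natCast, ← Real.rpow_add hL0]
      congr 1
      push_cast
      ring
    have h2 : 2000 * L ^ 2 ≤ k * d := by
      calc 2000 * L ^ 2 ≤ L ^ (e + s - 2) * L ^ 2 := by gcongr
        _ = L ^ e * L ^ s := h1.symm
        _ ≤ k * d := by gcongr
    linarith
  have hw3 : (k : ℝ) * L ^ (-(1 / 2) : ℝ) ≤ w / (8 * L) := by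
    rw [le_div_iff₀ (by positivity)]
    have h1 : L ^ (-(1 / 2) : ℝ) * L ^ (1 / 2 : ℝ) = 1 := by
      rw [← Real.rpow_add hL0]
      norm_num
    have h2 : (16 : ℝ) ≤ L ^ (1 / 2 : ℝ) := by
      calc (16 : ℝ) = (256 : ℝ) ^ (1 / 2 : ℝ) := by
            rw [show (256 : ℝ) = 16 ^ (2 : ℝ) by norm_num, ← Real.rpow_mul (by norm_num)]
            norm_num
        _ ≤ L ^ (1 / 2 : ℝ) := Real.rpow_le_rpow (by norm_num) g2 (by norm_num)
    have h3 : 0 < L ^ (-(1 / 2) : ℝ) := by positivity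
    have h4 : 16 * L ^ (-(1 / 2) : ℝ) ≤ 1 := by nlinarith
    have h5 : L ≤ d := by
      refine le_trans ?_ hdl
      calc L = L ^ (1 : ℝ) := (Real.rpow_one L).symm
        _ ≤ L ^ s := Real.rpow_le_rpow_of_exponent_le (by linarith) (by linarith)
    calc (k : ℝ) * L ^ (-(1 / 2) : ℝ) * (8 * L) = (k : ℝ) / 2 * (L * (16 * L ^ (-(1 / 2) : ℝ))) := by ring
      _ ≤ (k : ℝ) / 2 * (d * 1) := by gcongr
      _ ≤ w := by rw [mul_one]; exact hw1
  have h1 := PE_up' (μ := μ) h.meas h.indep k d n (L ^ (-(1 / 2) : ℝ)) (fun j hj => by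
    apply g1 _ (Nat.le_add_right _ _)
    have h3 : j * d ≤ w := by
      rw [hw]
      exact Nat.mul_le_mul_right d (by omega)
    omega) (by positivity)
  rw [← hw] at h1
  refine h1.trans ?_
  apply Real.exp_le_exp.2
  -- the sum over the window
  have hsum : (w / 2 - L) / (2 * L) ≤ ∑ m ∈ Icc n (n + w), μ.real (E m) := by
    have k0 : ∑ m ∈ Ioc n (n + w), μ.real (E m) ≤ ∑ m ∈ Icc n (n + w), μ.real (E m) :=
      Finset.sum_le_sum_of_subset_of_nonneg Ioc_subset_Icc_self (fun _ _ _ => measureReal_nonneg)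
    refine le_trans ?_ k0
    have k1 : ∀ m ∈ Ioc n (n + w), fT T m / (2 * L) ≤ μ.real (E m) := by
      intro m hm
      rw [mem_Ioc] at hm
      rw [hn₀ m (by omega)]
      have hm1 : (1 : ℝ) < m := by exact_mod_cast (by omega : 1 < m)
      apply div_le_div_of_nonneg_left (fT_nonneg T m) (Real.log_pos hm1)
      rw [hL]
      refine le_trans ?_ (hL ▸ g7)
      exact Real.log_le_log (by linarith) (by exact_mod_cast (by omega : m ≤ 2 * n))
    refine le_trans ?_ (Finset.sum_le_sum k1)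
    rw [← Finset.sum_div]
    apply div_le_div_of_nonneg_right _ (by positivity)
    have k2 := sum_window 13 le_rfl T hT n w (T (2 * n)) (hT (by omega))
    have k3 := (abs_le.1 k2).1
    have k4 : (2 : ℝ) ^ 25 * (1 / 2) ^ (2 * 13) = 1 / 2 := by norm_num
    have k5 : ((T (2 * n) : ℝ) + 2) ^ (8 * 13 + 18) = ((T (2 * n) : ℝ) + 2) ^ 122 := by norm_num
    rw [k4, k5] at k3
    have k6 : ((T (2 * n) : ℝ) + 2) ^ 122 ≤ L := by
      have k7 : (T (2 * n) : ℝ) ≤ (2 * L) ^ (1 / 244 : ℝ) := by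
        refine g6.trans ?_
        exact Real.rpow_le_rpow (Real.log_natCast_nonneg _) g7 (by norm_num)
      have k8 : (1 : ℝ) ≤ (2 * L) ^ (1 / 244 : ℝ) := Real.one_le_rpow (by linarith) (by norm_num)
      calc ((T (2 * n) : ℝ) + 2) ^ 122 ≤ (3 * (2 * L) ^ (1 / 244 : ℝ)) ^ 122 := by
            apply pow_le_pow_left₀ (by positivity)
            linarith
        _ = 3 ^ 122 * (2 * L) ^ (1 / 2 : ℝ) := by
            rw [mul_pow, ← Real.rpow_natCast ((2 * L) ^ (1 / 244 : ℝ)) 122,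
              ← Real.rpow_mul (by linarith)]
            norm_num
        _ ≤ 3 ^ 122 * (2 * L ^ (1 / 2 : ℝ)) := by
            rw [Real.mul_rpow (by norm_num) hL0.le]
            have : (2 : ℝ) ^ (1 / 2 : ℝ) ≤ 2 := by
              calc (2 : ℝ) ^ (1 / 2 : ℝ) ≤ 2 ^ (1 : ℝ) :=
                    Real.rpow_le_rpow_of_exponent_le (by norm_num) (by norm_num)
                _ = 2 := Real.rpow_one 2
            gcongr
        _ = (3 ^ 122 * 2) * L ^ (1 / 2 : ℝ) := by ring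
        _ ≤ L ^ (1 / 2 : ℝ) * L ^ (1 / 2 : ℝ) := by gcongr
        _ = L := by
            rw [← Real.rpow_add hL0]
            norm_num
    linarith
  have h2 : (w / 2 - L) / (2 * L) = 2 * (w / (8 * L)) - 1 / 2 := by
    field_simp
    ring
  rw [h2] at hsum
  have h3 : 1000 * L / 8 ≤ w / (8 * L) := by
    rw [le_div_iff₀ (by positivity)]
    nlinarith
  linarith

end Pool.Agent.U839.Ru
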