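import Mathlib
import Pool.Agent.U839.Ru.Upp

set_option autoImplicit false

/-! # The longest run -/

open MeasureTheory ProbabilityTheory Filter Finset Topology

namespace Pool.Agent.U839.Ru

open Pool.Agent.U839.Thin (tlog)
open Pool.Agent.U839.Fb (tloglog)
open Pool.Agent.U839.Sv (Sieved GS partA partC)

variable {Ω : Type*} [MeasurableSpace Ω] {μ : Measure Ω} [IsProbabilityMeasure μ]

theorem Tθ (T : ℕ → ℕ) (τ : ℝ)
    (hTτ : Tendsto (fun n : ℕ => (T n : ℝ) / Real.log (Real.log n)) atTop (𝓝 τ)) (θ : ℝ) (hθ : 0 < θ) :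
    ∀ᶠ n : ℕ in atTop, (T n : ℝ) ≤ (Real.log n) ^ θ := by
  filter_upwards [hTτ.eventually (gt_mem_nhds (show τ < τ + 1 by linarith)),
    tloglog.eventually (mul_exp (τ + 1) θ hθ), tloglog.eventually_gt_atTop 0,
    tlog.eventually_gt_atTop 0] with n g1 g2 g3 g4
  rw [div_lt_iff₀ g3] at g1
  refine g1.le.trans (g2.trans (le_of_eq ?_))
  rw [Real.rpow_def_of_pos g4, mul_comm]

/-- the upper bound for small sieves -/
theorem up3 (T : ℕ → ℕ) (hT : Monotone T) (τ : ℝ) (hτ0 : 0 ≤ τ) (hτ2 : τ < 2)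
    (hTτ : Tendsto (fun n : ℕ => (T n : ℝ) / Real.log (Real.log n)) atTop (𝓝 τ))
    {E : ℕ → Set Ω} (h : Sieved μ E T) (e : ℝ) (he : min 1 (2 - τ) < e) :
    ∀ᵐ ω ∂μ, ∀ᶠ X : ℕ in atTop, (LR {n | ω ∈ E n} X : ℝ) ≤ 2 * (Real.log X) ^ e := by
  have hTθ := Tθ T τ hTτ
  have hT1 := hTθ 1 one_pos
  have hTs := Pool.Agent.U839.Sv.sub_pow T 1 hT1
  have hGS := (partA T hT hTs E h).2 hTθ
  -- it suffices to find a smaller exponent
  obtain ⟨e', he'0, he'e, hp⟩ : ∃ e' : ℝ, 0 < e' ∧ e' ≤ e ∧ ∀ᶠ n : ℕ in atTop, ∀ d : ℕ, 0 < d →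
      primorial (T n) ≤ d → (d : ℝ) ≤ 2 * (Real.log n) ^ 2 →
      μ.real (PE E ⌈(Real.log n) ^ e'⌉₊ d n) ≤ Real.exp (-(4 * Real.log n)) := by
    rcases le_or_gt τ 1 with h1 | h1
    · rw [min_eq_left (by linarith)] at he
      refine ⟨min e 2, by positivity, min_le_left _ _, ?_⟩
      exact caseA T hT hT1 h (min e 2) (le_min he.le (by norm_num)) (min_le_right _ _)
    · rw [min_eq_right (by linarith)] at he
      obtain ⟨e', he'⟩ : ∃ e' : ℝ, e' = min e 1 := ⟨_, rfl⟩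
      have h2 : 2 - τ < e' := by
        rw [he']
        exact lt_min he (by linarith)
      have h3 : e' ≤ 1 := by rw [he']; exact min_le_right _ _
      refine ⟨e', by linarith, by rw [he']; exact min_le_left _ _, ?_⟩
      obtain ⟨s, hs1, hs2⟩ := exists_between (show 2 - e' < τ by linarith)
      apply caseB T hT hTθ h e' s (by linarith) h3 (by linarith)
      -- the primorial is large
      obtain ⟨η, hη, hη2, hη1⟩ : ∃ η : ℝ, 0 < η ∧ η < 1 ∧ s + η ≤ (1 - η) * (τ - η) := by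
        refine ⟨(τ - s) / 4, by linarith, by linarith, ?_⟩
        nlinarith [sq_nonneg (τ - s)]
      obtain ⟨C2, hC2, H2⟩ := prim_ge η hη
      filter_upwards [hTτ.eventually (lt_mem_nhds (show τ - η < τ by linarith)),
        tloglog.eventually_ge_atTop (C2 / η), tloglog.eventually_gt_atTop 0,
        tlog.eventually_gt_atTop 0] with n g1 g2 g3 g4
      rw [lt_div_iff₀ g3] at g1
      rw [div_le_iff₀ hη] at g2
      have h5 := H2 (T n)
      have hp0 : (0 : ℝ) < primorial (T n) := by exact_mod_cast primorial_pos _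
      rw [Real.rpow_def_of_pos g4, ← Real.le_log_iff_exp_le hp0]
      refine le_trans ?_ h5
      have hη3 : 0 < 1 - η := by linarith
      have h6 : (1 - η) * ((τ - η) * Real.log (Real.log n)) ≤ (1 - η) * T n := by gcongr
      nlinarith
  filter_upwards [bc (μ := μ) (fun n => ⌈(Real.log n) ^ e'⌉₊) (fun n => primorial (T n)) hp, sifted h,
    Pool.Agent.U839.Sv.inf h hT hTs, hGS] with ω h1 h2 h3 h4
  have hg : ∀ᶠ X : ℕ in atTop, (GS {n | ω ∈ E n} X : ℝ) ≤ 2 * (Real.log X) ^ 2 := by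
    filter_upwards [h4.eventually (gt_mem_nhds (show (1 : ℝ) < 2 by norm_num)),
      tlog.eventually_ge_atTop 1] with X g1 g2
    rw [div_lt_iff₀ (by positivity)] at g1
    exact g1.le
  have h5 := up_gen T hT {n | ω ∈ E n} h3 (fun m hm => h2 m hm) hg e' he'0 rfl (by
    filter_upwards [hTθ e' he'0] with n hn
    have := Nat.le_ceil ((Real.log n) ^ e')
    have h6 : (T n : ℝ) ≤ ⌈(Real.log n) ^ e'⌉₊ := hn.trans this
    exact_mod_cast h6) h1
  filter_upwards [h5, tlog.eventually_ge_atTop 1] with X g1 g2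
  refine g1.trans ?_
  have := Real.rpow_le_rpow_of_exponent_le g2 he'e
  linarith

/-- the order of the longest run for small sieves -/
theorem lim3 (T : ℕ → ℕ) (hT : Monotone T) (τ : ℝ) (hτ0 : 0 ≤ τ) (hτ2 : τ < 2)
    (hTτ : Tendsto (fun n : ℕ => (T n : ℝ) / Real.log (Real.log n)) atTop (𝓝 τ))
    {E : ℕ → Set Ω} (h : Sieved μ E T) :
    ∀ᵐ ω ∂μ, Tendsto (fun X : ℕ => Real.log (LR {n | ω ∈ E n} X) / Real.log (Real.log X)) atTop
      (𝓝 (min 1 (2 - τ))) := by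
  obtain ⟨ν, hν⟩ : ∃ ν, ν = min 1 (2 - τ) := ⟨_, rfl⟩
  have hν1 : ν ≤ 1 := by rw [hν]; exact min_le_left _ _
  have hν2 : ν ≤ 2 - τ := by rw [hν]; exact min_le_right _ _
  have hν0 : 0 < ν := by rw [hν]; exact lt_min one_pos (by linarith)
  have h1 : ∀ᵐ ω ∂μ, ∀ m : ℕ, (∀ᶠ X : ℕ in atTop, 1 / 4 * (Real.log X) ^ (ν * (1 - 1 / ((m : ℝ) + 2))) ≤
      LR {n | ω ∈ E n} X) ∧ ∀ᶠ X : ℕ in atTop, (LR {n | ω ∈ E n} X : ℝ) ≤
        2 * (Real.log X) ^ (ν + 1 / ((m : ℝ) + 1)) := by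
    rw [ae_all_iff]
    intro m
    have hm : (0 : ℝ) ≤ m := Nat.cast_nonneg m
    have hm0 : 0 < 1 / ((m : ℝ) + 2) := by positivity
    have hm1 : 1 / ((m : ℝ) + 2) < 1 := by
      rw [div_lt_one (by linarith)]
      linarith
    have hm2 : 0 < 1 / ((m : ℝ) + 1) := by positivity
    have e1 : 0 < ν * (1 - 1 / ((m : ℝ) + 2)) := mul_pos hν0 (by linarith)
    have e2 : ν * (1 - 1 / ((m : ℝ) + 2)) < ν := by nlinarith [mul_pos hν0 hm0]
    filter_upwards [low3 T hT τ hτ0 hTτ h _ e1 (by linarith) (by linarith),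
      up3 T hT τ hτ0 hτ2 hTτ h (ν + 1 / ((m : ℝ) + 1)) (by rw [← hν]; linarith)] with ω g1 g2
    exact ⟨g1, g2⟩
  filter_upwards [h1] with ω hω
  rw [← hν, Metric.tendsto_nhds]
  intro ε hε
  obtain ⟨m, hm⟩ := exists_nat_one_div_lt (half_pos hε)
  obtain ⟨g1, g2⟩ := hω m
  have hmp : (0 : ℝ) ≤ m := Nat.cast_nonneg m
  have hm2 : 1 / ((m : ℝ) + 2) < ε / 2 := by
    refine lt_trans ?_ hm
    apply one_div_lt_one_div_of_lt (by positivity)
    linarith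
  have hm0 : 0 < 1 / ((m : ℝ) + 2) := by positivity
  filter_upwards [g1, g2, tloglog.eventually_ge_atTop (8 / ε), tloglog.eventually_gt_atTop 0,
    tlog.eventually_gt_atTop 0] with X h1 h2 h3 h4 h5
  obtain ⟨u, hu⟩ : ∃ u, u = Real.log (Real.log X) := ⟨_, rfl⟩
  obtain ⟨R, hR⟩ : ∃ R : ℝ, R = (LR {n | ω ∈ E n} X : ℝ) := ⟨_, rfl⟩
  rw [← hu] at h3 h4 ⊢
  rw [← hR] at h1 h2 ⊢
  rw [div_le_iff₀ hε] at h3
  have hpos : 0 < 1 / 4 * (Real.log X) ^ (ν * (1 - 1 / ((m : ℝ) + 2))) := by positivity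
  have hR0 : 0 < R := lt_of_lt_of_le hpos h1
  have k1 := Real.log_le_log hpos h1
  have k2 := Real.log_le_log hR0 h2
  rw [Real.log_mul (by norm_num) (by positivity), Real.log_rpow h5, ← hu] at k1
  rw [Real.log_mul (by norm_num) (by positivity), Real.log_rpow h5, ← hu] at k2
  have k3 : Real.log (1 / 4) = -(2 * Real.log 2) := by
    rw [one_div, Real.log_inv, show (4 : ℝ) = 2 ^ 2 by norm_num, Real.log_pow]
    norm_num
  rw [k3] at k1
  have k4 := Real.log_two_lt_d9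
  have k5 := Real.log_two_gt_d9
  rw [Real.dist_eq, abs_lt]
  constructor
  · rw [lt_sub_iff_add_lt, lt_div_iff₀ h4]
    have k6 : ν * (1 / ((m : ℝ) + 2)) * u ≤ ε / 2 * u := by
      apply mul_le_mul_of_nonneg_right _ h4.le
      nlinarith
    nlinarith
  · rw [sub_lt_iff_lt_add, div_lt_iff₀ h4]
    have k6 : 1 / ((m : ℝ) + 1) * u ≤ ε / 2 * u := by
      apply mul_le_mul_of_nonneg_right hm.le h4.le
    nlinarith

/-- the lower bound for all exponents -/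
theorem lim1 (T : ℕ → ℕ) (hT : Monotone T) (hT1 : ∀ᶠ n : ℕ in atTop, (T n : ℝ) ≤ Real.log n)
    {E : ℕ → Set Ω} (h : Sieved μ E T) :
    ∀ᵐ ω ∂μ, {n | ω ∈ E n}.Infinite ∧ ∀ ε : ℝ, 0 < ε → ∀ᶠ X : ℕ in atTop,
      (2 - ε) * Real.log (Real.log X) ≤ LR {n | ω ∈ E n} X := by
  have hT1' : ∀ᶠ n : ℕ in atTop, (T n : ℝ) ≤ (Real.log n) ^ (1 : ℝ) := by
    filter_upwards [hT1] with n hn
    rwa [Real.rpow_one]
  have hTs := Pool.Agent.U839.Sv.sub_pow T 1 hT1'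
  have h1 : ∀ᵐ ω ∂μ, ∀ m : ℕ, ∀ᶠ X : ℕ in atTop,
      (2 - 1 / ((m : ℝ) + 2)) * Real.log (Real.log X) ≤ LR {n | ω ∈ E n} X := by
    rw [ae_all_iff]
    intro m
    have hm : (0 : ℝ) ≤ m := Nat.cast_nonneg m
    exact low1 T hT hT1 h (1 / ((m : ℝ) + 2)) (by positivity) (by
      rw [div_lt_one (by linarith)]
      linarith)
  filter_upwards [h1, Pool.Agent.U839.Sv.inf h hT hTs] with ω hω hinf
  refine ⟨hinf, fun ε hε => ?_⟩
  obtain ⟨m, hm⟩ := exists_nat_one_div_lt hε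
  have hmp : (0 : ℝ) ≤ m := Nat.cast_nonneg m
  have hm2 : 1 / ((m : ℝ) + 2) < ε := by
    refine lt_trans ?_ hm
    apply one_div_lt_one_div_of_lt (by positivity)
    linarith
  filter_upwards [hω m, tloglog.eventually_gt_atTop 0] with X g1 g2
  refine le_trans ?_ g1
  gcongr

/-- large sieves -/
theorem lim2 (T : ℕ → ℕ) (hT : Monotone T) (ε : ℝ) (hε : 0 < ε)
    (hTl : ∀ᶠ n : ℕ in atTop, (2 + ε) * Real.log (Real.log n) ≤ T n)
    {E : ℕ → Set Ω} (h : Sieved μ E T) (hGS : ∀ᵐ ω ∂μ, ∀ᶠ X : ℕ in atTop,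
      (GS {n | ω ∈ E n} X : ℝ) ≤ 2 * (Real.log X) ^ 2)
    (h1 : ∀ᵐ ω ∂μ, {n | ω ∈ E n}.Infinite ∧ ∀ ε : ℝ, 0 < ε → ∀ᶠ X : ℕ in atTop,
      (2 - ε) * Real.log (Real.log X) ≤ LR {n | ω ∈ E n} X) :
    ∀ᵐ ω ∂μ, Tendsto (fun X : ℕ => (LR {n | ω ∈ E n} X : ℝ) / Real.log (Real.log X)) atTop (𝓝 2) := by
  filter_upwards [hGS, h1, sifted h] with ω g1 g2 g3
  rw [Metric.tendsto_nhds]
  intro δ hδ
  obtain ⟨e, he0, he1, he2, he3⟩ : ∃ e : ℝ, 0 < e ∧ e ≤ 1 ∧ e ≤ ε ∧ 2 * e < δ := by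
    refine ⟨min 1 (min ε (δ / 4)), by positivity, min_le_left _ _,
      (min_le_right _ _).trans (min_le_left _ _), ?_⟩
    have : min 1 (min ε (δ / 4)) ≤ δ / 4 := (min_le_right _ _).trans (min_le_right _ _)
    linarith
  filter_upwards [up2 T hT _ g2.1 (fun m hm => g3 m hm) g1 ε hTl e he0 he2 he1, g2.2 (δ / 2) (by linarith),
    tloglog.eventually_gt_atTop 0] with X k1 k2 k3
  rw [Real.dist_eq, abs_lt]
  constructor
  · rw [lt_sub_iff_add_lt, lt_div_iff₀ k3]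
    nlinarith
  · rw [sub_lt_iff_lt_add, div_lt_iff₀ k3]
    nlinarith

end Pool.Agent.U839.Ru
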